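import Pool.Agent.Q77.LU.StmU
import Pool.Agent.Q222.LU.FIB

/-!
# Project LU, uniform version, job FIBU: the fibre inequality
-/

set_option autoImplicit false

namespace Pool.Agent.Q222.LUU

open Pool.Agent.Q77.LU Pool.Agent.Q222.LU MeasureTheory Set Filter Topology
open scoped ContDiff

theorem sec_core (Q : Type) [Fintype Q] [DecidableEq Q] (om : Q → ℝ) (K0 o δ : ℝ)
    (ho : 0 < o) (hoi : ∀ i, o ≤ om i) (hK0 : 0 ≤ K0) (hδpos : 0 < δ)
    (hδ1 : δ ≤ 1 / (2 * (K0 + 1))) :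
    ∀ g t c : ℝ, 0 < g → g ≤ δ → 0 ≤ t → K0 * t ≤ 1 / 4 → 0 ≤ c → ∀ u : (Q → ℝ) → ℝ, Continuous u →
    (∀ a : Q → ℝ, n2 a ≤ δ ^ 2 →
      1 / 2 * ∑ i, om i ^ 2 * a i ^ 2 - K0 * c * n2 a - K0 * nr a ^ 3 ≤ u a) →
    ∀ f : (Q → ℝ) → ℝ, ContDiff ℝ 1 f → (∀ a, f a ≠ 0 → n2 a < δ ^ 2) →
    (∫ a, (1 / 2 * ∑ i, om i - (K0 * (2 * (∑ i, om i) + 1)) * (t + n2 a) -
      (K0 * (2 * (∑ i, om i) + 1)) * c / g ^ 2 * n2 a -
      (K0 * (2 * (∑ i, om i) + 1)) / g ^ 2 * nr a ^ 3) *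
        f a ^ 2) + o / 2 * ((∫ a, f a ^ 2) - (∫ a, f a * gau om g a) ^ 2) ≤
      ∫ a, (g ^ 2 / 2 * (1 - K0 * (t + n2 a)) * g2 f a + 1 / g ^ 2 * u a * f a ^ 2) := by
  have hom : ∀ i, 0 < om i := fun i => ho.trans_le (hoi i)
  set So : ℝ := ∑ i, om i with hSo
  have hSo0 : 0 ≤ So := Finset.sum_nonneg fun i _ => (hom i).le
  have homle : ∀ i, om i ≤ So := fun i =>
    Finset.single_le_sum (f := om) (fun i _ => (hom i).le) (Finset.mem_univ i)
  have hδK : K0 * δ ^ 2 ≤ 1 / 4 := small_aux hK0 hδpos hδ1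
  intro g t c hg hgδ ht htδ hc u hu hul f hf hfs
  have hcs : HasCompactSupport f := cs_of_ball hfs
  have hf0 : Continuous f := hf.continuous
  set h : (Q → ℝ) → ℝ := fun z => 1 / 2 * ex om z with hh
  set ρ : (Q → ℝ) → ℝ := fun z => 1 - K0 * (t + n2 z) with hρ
  have hh2 : ContDiff ℝ 2 h := contDiff_const.mul (contDiff_ex om)
  have hρ1 : ContDiff ℝ 1 ρ := contDiff_const.sub (contDiff_const.mul
    (contDiff_const.add contDiff_n2))
  have jac := Pool.Agent.Q31.LU.t_JAC Q h ρ f g hg hh2 hρ1 hf hcs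
  have hlap : ∀ y, lap h y = So := by
    intro y
    unfold lap
    refine Finset.sum_congr rfl fun i _ => ?_
    have : pd h i = fun y => om i * y i := by
      funext y; exact pd_h om i y
    rw [this, pd_lin]
  have hrh : ∀ y, ∑ i, pd ρ i y * pd h i y = -(2 * K0 * ex om y) := by
    intro y
    unfold ex
    rw [Finset.mul_sum, ← Finset.sum_neg_distrib]
    refine Finset.sum_congr rfl fun i _ => ?_
    rw [pd_h, pd_rho]
    ring
  have hg2 : ∀ y, g2 h y = ∑ i, om i ^ 2 * y i ^ 2 := by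
    intro y
    unfold g2
    refine Finset.sum_congr rfl fun i _ => ?_
    rw [pd_h, mul_pow]
  set φ : (Q → ℝ) → ℝ := fun z => f z * Real.exp (h z / g ^ 2) with hφ
  have hφ1 : ContDiff ℝ 1 φ := hf.mul ((hh2.of_le (by norm_num)).div_const _).exp
  have hφs : ∀ a, φ a ≠ 0 → n2 a < δ ^ 2 := fun a ha => hfs a (left_ne_zero_of_mul ha)
  have hφcs : HasCompactSupport φ := cs_of_ball hφs
  have hρc : Continuous ρ := hρ1.continuous
  have hhc : Continuous h := hh2.continuous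
  have hexc : Continuous (ex om) := continuous_ex om
  -- the range of the density
  have hρlow : ∀ a, n2 a ≤ δ ^ 2 → 1 / 2 ≤ ρ a := by
    intro a ha
    have h1 : K0 * (t + n2 a) ≤ K0 * t + K0 * δ ^ 2 := by
      have := mul_le_mul_of_nonneg_left ha hK0
      linarith [mul_add K0 t (n2 a)]
    simp only [hρ]
    linarith
  have hρup : ∀ a, ρ a ≤ 1 := by
    intro a
    have h1 : 0 ≤ K0 * (t + n2 a) := mul_nonneg hK0 (add_nonneg ht (n2_nonneg a))
    simp only [hρ]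
    linarith
  -- the first integral
  have gp := t_GP Q om o g ho hoi hg f hf hcs
  have hexpc : Continuous fun a => Real.exp (-(2 * h a / g ^ 2)) := by fun_prop
  have e1 : ∀ a, Real.exp (-(2 * h a / g ^ 2)) = Real.exp (-(∑ i, om i * a i ^ 2) / g ^ 2) := by
    intro a
    congr 1
    simp only [hh, ex]
    ring
  have e2 : (fun z : Q → ℝ => f z * Real.exp ((∑ i, om i * z i ^ 2) / (2 * g ^ 2))) = φ := by
    funext z
    simp only [hφ, hh, ex]
    congr 2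
    field_simp
  rw [e2] at gp
  have i1 : Integrable fun a => g ^ 2 / 2 * ρ a * Real.exp (-(2 * h a / g ^ 2)) * g2 φ a :=
    int_g2 hφ1 hφcs ((continuous_const.mul hρc).mul hexpc)
  have hfirst : o / 2 * ((∫ a, f a ^ 2) - (∫ a, f a * gau om g a) ^ 2) ≤
      ∫ a, g ^ 2 / 2 * ρ a * Real.exp (-(2 * h a / g ^ 2)) * g2 φ a := by
    have h1 : o / 2 * ((∫ a, f a ^ 2) - (∫ a, f a * gau om g a) ^ 2) ≤
        o / 2 * (g ^ 2 / (2 * o) * ∫ a, Real.exp (-(∑ i, om i * a i ^ 2) / g ^ 2) * g2 φ a) :=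
      mul_le_mul_of_nonneg_left gp (by positivity)
    have h2 : o / 2 * (g ^ 2 / (2 * o) *
        ∫ a, Real.exp (-(∑ i, om i * a i ^ 2) / g ^ 2) * g2 φ a) =
        ∫ a, g ^ 2 / 4 * Real.exp (-(2 * h a / g ^ 2)) * g2 φ a := by
      rw [← mul_assoc, ← integral_const_mul]
      refine integral_congr_ae (ae_of_all _ fun a => ?_)
      simp only [e1]
      field_simp
      ring
    rw [h2] at h1
    refine h1.trans (integral_mono ?_ i1 fun a => ?_)
    · exact int_g2 hφ1 hφcs (continuous_const.mul hexpc)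
    · simp only
      by_cases ha : n2 a ≤ δ ^ 2
      · have h3 := hρlow a ha
        have h4 : 0 ≤ Real.exp (-(2 * h a / g ^ 2)) * g2 φ a :=
          mul_nonneg (Real.exp_pos _).le (g2_nonneg _ _)
        have h5 : g ^ 2 / 4 ≤ g ^ 2 / 2 * ρ a := by nlinarith [sq_nonneg g]
        calc g ^ 2 / 4 * Real.exp (-(2 * h a / g ^ 2)) * g2 φ a
            = g ^ 2 / 4 * (Real.exp (-(2 * h a / g ^ 2)) * g2 φ a) := by ring
          _ ≤ g ^ 2 / 2 * ρ a * (Real.exp (-(2 * h a / g ^ 2)) * g2 φ a) :=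
              mul_le_mul_of_nonneg_right h5 h4
          _ = _ := by ring
      · rw [g2_out hφs (not_le.1 ha)]
        simp
  -- the second integral
  have i2 : Integrable fun a => (1 / 2 * (ρ a * lap h a + ∑ i, pd ρ i a * pd h i a) -
      1 / (2 * g ^ 2) * (ρ a * g2 h a)) * f a ^ 2 := by
    refine int_f2 hf0 hcs ?_
    simp only [hlap, hrh, hg2]
    fun_prop
  have i3 : Integrable fun a => 1 / g ^ 2 * u a * f a ^ 2 :=
    int_f2 hf0 hcs (continuous_const.mul hu)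
  have i4 : Integrable fun a => g ^ 2 / 2 * ρ a * g2 f a :=
    int_g2 hf hcs (continuous_const.mul hρc)
  have hsplit : ∫ a, (g ^ 2 / 2 * (1 - K0 * (t + n2 a)) * g2 f a + 1 / g ^ 2 * u a * f a ^ 2) =
      (∫ a, g ^ 2 / 2 * ρ a * g2 f a) + ∫ a, 1 / g ^ 2 * u a * f a ^ 2 :=
    integral_add i4 i3
  rw [hsplit, jac]
  have i5 : Integrable fun a => (1 / 2 * So - K0 * (2 * So + 1) * (t + n2 a) -
      K0 * (2 * So + 1) * c / g ^ 2 * n2 a - K0 * (2 * So + 1) / g ^ 2 * nr a ^ 3) *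
      f a ^ 2 := by
    refine int_f2 hf0 hcs ?_
    have := continuous_n2 (Q := Q)
    have := continuous_nr (Q := Q)
    fun_prop
  have hsecond : (∫ a, (1 / 2 * So - K0 * (2 * So + 1) * (t + n2 a) -
      K0 * (2 * So + 1) * c / g ^ 2 * n2 a - K0 * (2 * So + 1) / g ^ 2 * nr a ^ 3) *
      f a ^ 2) ≤ (∫ a, (1 / 2 * (ρ a * lap h a + ∑ i, pd ρ i a * pd h i a) -
      1 / (2 * g ^ 2) * (ρ a * g2 h a)) * f a ^ 2) + ∫ a, 1 / g ^ 2 * u a * f a ^ 2 := by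
    rw [← integral_add i2 i3]
    refine integral_mono i5 (i2.add i3) fun a => ?_
    simp only
    by_cases ha : n2 a ≤ δ ^ 2
    · rw [← add_mul]
      refine mul_le_mul_of_nonneg_right ?_ (sq_nonneg _)
      rw [hlap, hrh, hg2]
      have hua := hul a ha
      set W : ℝ := ∑ i, om i ^ 2 * a i ^ 2 with hW
      have hW0 : 0 ≤ W := Finset.sum_nonneg fun i _ => by positivity
      have hN0 : 0 ≤ n2 a := n2_nonneg a
      have hR0 : 0 ≤ nr a ^ 3 := pow_nonneg (nr_nonneg a) 3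
      have hex : ex om a ≤ So * n2 a := by
        unfold ex n2
        rw [Finset.mul_sum]
        exact Finset.sum_le_sum fun i _ => mul_le_mul_of_nonneg_right (homle i) (sq_nonneg _)
      have hρu := hρup a
      have hρa : ρ a = 1 - K0 * (t + n2 a) := rfl
      have hg2pos : 0 < g ^ 2 := by positivity
      -- the potential part
      have p1 : -(K0 * c * n2 a + K0 * nr a ^ 3) / g ^ 2 ≤
          1 / g ^ 2 * u a - 1 / (2 * g ^ 2) * (ρ a * W) := by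
        have h1 : 1 / g ^ 2 * u a - 1 / (2 * g ^ 2) * (ρ a * W) =
            (u a - 1 / 2 * ρ a * W) / g ^ 2 := by field_simp
        rw [h1]
        refine div_le_div_of_nonneg_right ?_ hg2pos.le
        have h2 : ρ a * W ≤ 1 * W := mul_le_mul_of_nonneg_right hρu hW0
        linarith
      -- the kinetic part
      have p2 : 1 / 2 * So - K0 * (2 * So + 1) * (t + n2 a) ≤
          1 / 2 * (ρ a * So + -(2 * K0 * ex om a)) := by
        rw [hρa]
        have h1 : K0 * ex om a ≤ K0 * (So * n2 a) := mul_le_mul_of_nonneg_left hex hK0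
        have h2 : 0 ≤ K0 * So * (t + n2 a) := by positivity
        have h3 : 0 ≤ K0 * (t + n2 a) := by positivity
        have h4 : 0 ≤ K0 * So * t := by positivity
        nlinarith
      have p3 : K0 * c * n2 a + K0 * nr a ^ 3 ≤
          K0 * (2 * So + 1) * c * n2 a + K0 * (2 * So + 1) * nr a ^ 3 := by
        have h1 : 0 ≤ K0 * So * c * n2 a := by positivity
        have h2 : 0 ≤ K0 * So * nr a ^ 3 := by positivity
        nlinarith
      have p4 : -(K0 * (2 * So + 1) * c * n2 a + K0 * (2 * So + 1) * nr a ^ 3) / g ^ 2 ≤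
          -(K0 * c * n2 a + K0 * nr a ^ 3) / g ^ 2 :=
        div_le_div_of_nonneg_right (by linarith) hg2pos.le
      have p5 : 1 / 2 * So - K0 * (2 * So + 1) * (t + n2 a) -
          K0 * (2 * So + 1) * c / g ^ 2 * n2 a - K0 * (2 * So + 1) / g ^ 2 * nr a ^ 3 =
          (1 / 2 * So - K0 * (2 * So + 1) * (t + n2 a)) +
          -(K0 * (2 * So + 1) * c * n2 a + K0 * (2 * So + 1) * nr a ^ 3) / g ^ 2 := by
        field_simp
        ring
      rw [p5]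
      linarith
    · rw [f_out hfs (not_le.1 ha)]
      simp
  have hjac2 : (∫ y, g ^ 2 / 2 * ρ y * Real.exp (-(2 * h y / g ^ 2)) *
      g2 (fun z => f z * Real.exp (h z / g ^ 2)) y) =
      ∫ a, g ^ 2 / 2 * ρ a * Real.exp (-(2 * h a / g ^ 2)) * g2 φ a := rfl
  rw [hjac2]
  linarith



theorem osc_core (Q : Type) [Fintype Q] [DecidableEq Q] (s K0 K1 τ K' δ : ℝ) (hs : 0 < s)
    (hK0 : 0 ≤ K0) (hK1 : 0 ≤ K1) (hτ : τ = (K0 + K1 + 1) / s)
    (hK' : K' = (Fintype.card Q : ℝ) * K0 ^ 2 + 3 * τ * ((Fintype.card Q : ℝ) + 1) +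
      2 * K0 ^ 2 * (Fintype.card Q : ℝ) ^ 2)
    (hδpos : 0 < δ) (hδ1 : δ ≤ 1 / (2 * (K0 + 1))) (hδ2 : 9 * τ * δ ≤ s) :
    ∀ g t : ℝ, 0 < g → g ≤ δ → 0 ≤ t → K0 * t ≤ 1 / 4 →
    ∀ S : Matrix Q Q ℝ, S.IsSymm → (∀ i j, |S i j| ≤ K0) →
    (∀ a : Q → ℝ, s * n2 a ≤ ∑ i, a i * (S.mulVec a) i) →
    ∀ u : (Q → ℝ) → ℝ, Continuous u →
    (∀ a : Q → ℝ, n2 a ≤ δ ^ 2 → 1 / 2 * n2 (S.mulVec a) - K0 * nr a ^ 3 ≤ u a) →
    ∀ f : (Q → ℝ) → ℝ, ContDiff ℝ 1 f → (∀ a, f a ≠ 0 → n2 a < δ ^ 2) →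
    ∫ a, (1 / 2 * S.trace - (K' + K' * (K' + 1)) * (t + g) + K1 / g ^ 2 * nr a ^ 3) * f a ^ 2 ≤
      ∫ a, (g ^ 2 / 2 * (1 - K0 * (t + n2 a)) * g2 f a + 1 / g ^ 2 * u a * f a ^ 2) := by
  have hτpos : 0 < τ := by rw [hτ]; positivity
  have hτs : τ * s = K0 + K1 + 1 := by rw [hτ]; field_simp
  set q : ℝ := (Fintype.card Q : ℝ) with hq
  have hq0 : 0 ≤ q := Nat.cast_nonneg _
  have hK'0 : 0 ≤ K' := by rw [hK']; positivity
  have hδle1 : δ ≤ 1 := by
    refine hδ1.trans ?_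
    rw [div_le_one (by positivity)]
    linarith
  have hδK : K0 * δ ^ 2 ≤ 1 / 4 := small_aux hK0 hδpos hδ1
  intro g t hg hgδ ht htδ S hS hSK hSs u hu hul f hf hfs
  have hcs : HasCompactSupport f := cs_of_ball hfs
  have hf0 : Continuous f := hf.continuous
  set h : (Q → ℝ) → ℝ := fun z => 1 / 2 * bil S z - τ * Rg g z ^ 3 with hh
  set ρ : (Q → ℝ) → ℝ := fun z => 1 - K0 * (t + n2 z) with hρ
  have hh2 : ContDiff ℝ 2 h :=
    (contDiff_const.mul (contDiff_bil S)).sub (contDiff_const.mul ((contDiff_Rg hg).pow 3))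
  have hρ1 : ContDiff ℝ 1 ρ := contDiff_const.sub (contDiff_const.mul
    (contDiff_const.add contDiff_n2))
  have jac := Pool.Agent.Q31.LU.t_JAC Q h ρ f g hg hh2 hρ1 hf hcs
  have hpd : ∀ i, pd h i = fun y => (S.mulVec y) i - 3 * τ * (Rg g y * y i) := by
    intro i
    funext y
    simp only [hh]
    rw [pd_sub (contDiff_const.mul (contDiff_bil S))
      (contDiff_const.mul ((contDiff_Rg hg).pow 3)), pd_const_mul (contDiff_bil S),
      pd_const_mul ((contDiff_Rg hg).pow 3), pd_bil S hS, pd_Rg3 hg]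
    ring
  have hlap : ∀ y, lap h y = S.trace - 3 * τ * (q * Rg g y + n2 y / Rg g y) := by
    intro y
    unfold lap
    have h1 : ∀ i, pd (pd h i) i y = S i i - 3 * τ * (Rg g y + y i ^ 2 / Rg g y) := by
      intro i
      have hyi : ContDiff ℝ 1 fun z : Q → ℝ => z i := contDiff_apply ℝ ℝ i
      rw [hpd, pd_sub (contDiff_mulVec S i)
        (contDiff_const.mul ((contDiff_Rg hg).mul hyi)),
        pd_const_mul ((contDiff_Rg hg).mul hyi), pd_mulVec,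
        Pool.Agent.Q31.LU.pd_mul (contDiff_Rg hg) hyi, pd_Rg hg]
      have h2 : pd (fun z : Q → ℝ => z i) i y = 1 := by
        have := pd_lin 1 i y
        simpa using this
      rw [h2]
      ring
    rw [Finset.sum_congr rfl fun i _ => h1 i, Finset.sum_sub_distrib, ← Finset.mul_sum,
      Finset.sum_add_distrib, Finset.sum_const, Finset.card_univ, nsmul_eq_mul,
      ← Finset.sum_div]
    rfl
  have hrh : ∀ y, ∑ i, pd ρ i y * pd h i y =
      -(2 * K0 * (bil S y - 3 * τ * (Rg g y * n2 y))) := by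
    intro y
    have h1 : ∀ i, pd ρ i y * pd h i y =
        -(2 * K0) * (y i * (S.mulVec y) i) + (2 * K0 * (3 * τ * Rg g y)) * y i ^ 2 := by
      intro i
      rw [hpd, pd_rho]
      ring
    rw [Finset.sum_congr rfl fun i _ => h1 i, Finset.sum_add_distrib, ← Finset.mul_sum,
      ← Finset.mul_sum]
    have h2 : ∑ i, y i * (S.mulVec y) i = bil S y := rfl
    have h3 : ∑ i, y i ^ 2 = n2 y := rfl
    rw [h2, h3]
    ring
  have hg2 : ∀ y, g2 h y = n2 (S.mulVec y) - 6 * τ * Rg g y * bil S y +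
      9 * τ ^ 2 * Rg g y ^ 2 * n2 y := by
    intro y
    unfold g2
    have h1 : ∀ i, pd h i y ^ 2 = (S.mulVec y) i ^ 2 - 6 * τ * Rg g y * (y i * (S.mulVec y) i) +
        9 * τ ^ 2 * Rg g y ^ 2 * y i ^ 2 := by
      intro i
      rw [hpd]
      ring
    rw [Finset.sum_congr rfl fun i _ => h1 i, Finset.sum_add_distrib, Finset.sum_sub_distrib,
      ← Finset.mul_sum, ← Finset.mul_sum]
    rfl
  set φ : (Q → ℝ) → ℝ := fun z => f z * Real.exp (h z / g ^ 2) with hφ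
  have hφs : ∀ a, φ a ≠ 0 → n2 a < δ ^ 2 := fun a ha => hfs a (left_ne_zero_of_mul ha)
  have hρc : Continuous ρ := hρ1.continuous
  have hhc : Continuous h := hh2.continuous
  have hρlow : ∀ a, n2 a ≤ δ ^ 2 → 1 / 2 ≤ ρ a := by
    intro a ha
    have h1 : K0 * (t + n2 a) ≤ K0 * t + K0 * δ ^ 2 := by
      have := mul_le_mul_of_nonneg_left ha hK0
      linarith [mul_add K0 t (n2 a)]
    simp only [hρ]
    linarith
  have hρup : ∀ a, ρ a ≤ 1 := by
    intro a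
    have h1 : 0 ≤ K0 * (t + n2 a) := mul_nonneg hK0 (add_nonneg ht (n2_nonneg a))
    simp only [hρ]
    linarith
  have hfirst : 0 ≤ ∫ a, g ^ 2 / 2 * ρ a * Real.exp (-(2 * h a / g ^ 2)) * g2 φ a := by
    refine integral_nonneg fun a => ?_
    simp only [Pi.zero_apply]
    by_cases ha : n2 a ≤ δ ^ 2
    · have h3 := hρlow a ha
      have h4 := g2_nonneg φ a
      have h5 := Real.exp_pos (-(2 * h a / g ^ 2))
      positivity
    · rw [g2_out hφs (not_le.1 ha)]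
      simp
  have hbc : Continuous (bil S) := (contDiff_bil S (n := 1)).continuous
  have hRc : Continuous (Rg g : (Q → ℝ) → ℝ) := (contDiff_Rg hg (n := 1)).continuous
  have hmc : ∀ i, Continuous fun a : Q → ℝ => (S.mulVec a) i := fun i =>
    (contDiff_mulVec S i (n := 1)).continuous
  have hnSc : Continuous fun a : Q → ℝ => n2 (S.mulVec a) := by
    unfold n2
    exact continuous_finsetSum _ fun i _ => (hmc i).pow 2
  have hn2c := continuous_n2 (Q := Q)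
  have hnrc := continuous_nr (Q := Q)
  have i2 : Integrable fun a => (1 / 2 * (ρ a * lap h a + ∑ i, pd ρ i a * pd h i a) -
      1 / (2 * g ^ 2) * (ρ a * g2 h a)) * f a ^ 2 := by
    refine int_f2 hf0 hcs ?_
    simp only [hlap, hrh, hg2]
    have hdc : Continuous fun a : Q → ℝ => n2 a / Rg g a :=
      hn2c.div hRc fun a => (Rg_pos hg a).ne'
    fun_prop
  have i3 : Integrable fun a => 1 / g ^ 2 * u a * f a ^ 2 :=
    int_f2 hf0 hcs (continuous_const.mul hu)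
  have i4 : Integrable fun a => g ^ 2 / 2 * ρ a * g2 f a :=
    int_g2 hf hcs (continuous_const.mul hρc)
  have hsplit : ∫ a, (g ^ 2 / 2 * (1 - K0 * (t + n2 a)) * g2 f a + 1 / g ^ 2 * u a * f a ^ 2) =
      (∫ a, g ^ 2 / 2 * ρ a * g2 f a) + ∫ a, 1 / g ^ 2 * u a * f a ^ 2 :=
    integral_add i4 i3
  rw [hsplit, jac]
  have i5 : Integrable fun a => (1 / 2 * S.trace - (K' + K' * (K' + 1)) * (t + g) +
      K1 / g ^ 2 * nr a ^ 3) * f a ^ 2 := by
    refine int_f2 hf0 hcs ?_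
    fun_prop
  have hsecond : (∫ a, (1 / 2 * S.trace - (K' + K' * (K' + 1)) * (t + g) +
      K1 / g ^ 2 * nr a ^ 3) * f a ^ 2) ≤
      (∫ a, (1 / 2 * (ρ a * lap h a + ∑ i, pd ρ i a * pd h i a) -
      1 / (2 * g ^ 2) * (ρ a * g2 h a)) * f a ^ 2) + ∫ a, 1 / g ^ 2 * u a * f a ^ 2 := by
    rw [← integral_add i2 i3]
    refine integral_mono i5 (i2.add i3) fun a => ?_
    simp only
    by_cases ha : n2 a ≤ δ ^ 2
    · rw [← add_mul]
      refine mul_le_mul_of_nonneg_right ?_ (sq_nonneg _)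
      rw [hlap, hrh, hg2]
      have hua := hul a ha
      have hAs := hSs a
      have hAu := bil_le S K0 hSK a
      have hA : ∑ i, a i * (S.mulVec a) i = bil S a := rfl
      rw [hA] at hAs
      set A : ℝ := bil S a with hAdef
      set R : ℝ := Rg g a with hR
      set r : ℝ := nr a with hr
      have hr0 : 0 ≤ r := nr_nonneg a
      have hn2 : n2 a = r ^ 2 := (nr_sq a).symm
      rw [hn2] at hAs hAu ha
      have hrδ : r ≤ δ := nr_le hδpos.le (by rw [hn2]; exact ha)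
      have hr1 : r ≤ 1 := hrδ.trans hδle1
      have hR0 : 0 < R := Rg_pos hg a
      have hrR : r ≤ R := nr_le_Rg a
      have hRr : R ≤ r + g := Rg_le hg a
      have hRδ : R ≤ 2 * δ := by linarith
      set N : ℝ := n2 (S.mulVec a) with hN
      have hg2pos : 0 < g ^ 2 := by positivity
      have hρa : ρ a = 1 - K0 * (t + r ^ 2) := by simp only [hρ, hn2]
      have hρ0 : 0 ≤ ρ a := by
        have := hρlow a (by rw [hn2]; exact ha)
        linarith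
      have hρ1' : ρ a ≤ 1 := hρup a
      have hG0 : 0 ≤ N - 6 * τ * R * A + 9 * τ ^ 2 * R ^ 2 * n2 a := by
        have := g2_nonneg h a
        rw [hg2] at this
        exact this
      rw [hn2] at hG0 ⊢
      have hT : |S.trace| ≤ q * K0 := by
        unfold Matrix.trace
        refine (Finset.abs_sum_le_sum_abs _ _).trans ?_
        calc ∑ i, |Matrix.diag S i| ≤ ∑ _i : Q, K0 := Finset.sum_le_sum fun i _ => hSK i i
          _ = q * K0 := by simp [hq, Finset.card_univ]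
      have hpot := osc_pot hs hτpos hτs hδ2 hg hR0 hrR hRδ hAs hG0 hρ1' hua
      have hkin := osc_kin hK0 hτpos hq0 hg ht hr0 hr1 hR0 hrR hRr hAu hT hρa hρ1'
      rw [← hK'] at hkin
      have hcomb := osc_comb hK0 hK1 hK'0 hg hr0
      have h18 : K1 / g ^ 2 * r ^ 3 + (K0 + K1 + 2) * r ^ 3 / g ^ 2 =
          (K1 + (K0 + K1 + 2)) * r ^ 3 / g ^ 2 := by ring
      have h19 : 0 ≤ K' * (K' + 1) * t := by positivity
      have h20 : (K' + K' * (K' + 1)) * (t + g) =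
          K' * t + K' * g + K' * (K' + 1) * t + K' * (K' + 1) * g := by ring
      rw [h20]
      have h21 : K' * (t + r + g) = K' * t + K' * r + K' * g := by ring
      rw [h21] at hkin
      linarith
    · rw [f_out hfs (not_le.1 ha)]
      simp
  have hjac2 : (∫ y, g ^ 2 / 2 * ρ y * Real.exp (-(2 * h y / g ^ 2)) *
      g2 (fun z => f z * Real.exp (h z / g ^ 2)) y) =
      ∫ a, g ^ 2 / 2 * ρ a * Real.exp (-(2 * h a / g ^ 2)) * g2 φ a := rfl
  rw [hjac2]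
  linarith



/-- combination of the three bounds, pointwise -/
theorem fib_combU {So θ c g K2 K3 k1 μ θ' q K' r : ℝ} (hg : 0 < g)
    (hc : 0 ≤ c) (hc1 : c ≤ 1) (hK2 : 0 ≤ K2) (hK3 : 0 ≤ K3) (hq : 0 ≤ q) (hK' : 0 ≤ K')
    (hr : 0 ≤ r) (hr1 : r ≤ 1) (hμ0 : 0 ≤ μ) (hμ : μ ≤ 1 / 4) (hμθ : μ * (1 / 2 * So) ≤ θ)
    (hθ0 : 0 ≤ θ') (hθ' : θ' ≤ 1 / 4) (hθμ : θ' * K2 ≤ μ * k1) :
    1 / 2 * So - θ * c - (1 / 2 * K' * q + 2 * K3 + 2 * K2) * (c ^ 2 + g) ≤
      (1 - θ' - μ * c) * (1 / 2 * (So - K' * c ^ 2 * q) - K3 * (c ^ 2 + g + g) +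
        (4 * K2 + 4) / g ^ 2 * r ^ 3) +
      θ' * (1 / 2 * So - K2 * (c ^ 2 + g + r ^ 2) - K2 * c / g ^ 2 * r ^ 2 - K2 / g ^ 2 * r ^ 3) +
      μ * c * (k1 * r ^ 2 / g ^ 2) := by
  have h := fib_comb hg hc hc1 hK2 hK3 hq hK' hr hr1 hμ0 hμ hμθ hθ0 hθ' hθμ
  have h1 : (1 - θ' - μ * c) * (K3 * g) ≤ 1 * (K3 * g) := by
    have : 0 ≤ μ * c := mul_nonneg hμ0 hc
    exact mul_le_mul_of_nonneg_right (by linarith) (by positivity)
  have h2 : θ' * (K2 * g) ≤ 1 * (K2 * g) :=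
    mul_le_mul_of_nonneg_right (by linarith) (by positivity)
  have h3 : 0 ≤ (K3 + K2) * c ^ 2 := by positivity
  linarith

theorem fib_core (Q : Type) [Fintype Q] [DecidableEq Q] (om : Q → ℝ)
    (K0 θ o δ μ θ' K' K2 KK τ K'' K3 q So : ℝ)
    (hq : q = (Fintype.card Q : ℝ)) (hSo : So = ∑ i, om i)
    (ho : 0 < o) (ho1 : o ≤ 1) (hoi : ∀ i, o ≤ om i) (hK0 : 0 ≤ K0)
    (hK' : K' = (q ^ 3 * K0 ^ 2 / (4 * o ^ 2) + 2 * K0) / o)
    (hK2e : K2 = K0 * (q ^ 2 + 1) * (2 * So + 1))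
    (hKK : KK = K0 + So + K0 / (2 * o) + K')
    (hτ : τ = (KK + (4 * K2 + 4) + 1) / (o / 2))
    (hK'' : K'' = q * KK ^ 2 + 3 * τ * (q + 1) + 2 * KK ^ 2 * q ^ 2)
    (hK3e : K3 = K'' + K'' * (K'' + 1))
    (hδpos : 0 < δ) (hδ2 : δ ≤ 1 / (2 * (K0 * (q ^ 2 + 1) + 1))) (hδ3 : δ ≤ 1 / (2 * (KK + 1)))
    (hδ5 : 8 * (K0 * (q ^ 2 + 1)) * δ ≤ 1) (hδ6 : 8 * KK * δ ≤ 1)
    (hδ4 : 9 * τ * δ ≤ o / 2)
    (hδD : (1 + q ^ 2 * K0 / o + K' + K0 + q ^ 2 * K0) * δ ≤ o ^ 2 / 16)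
    (hμpos : 0 < μ) (hμle : μ ≤ 1 / 4) (hμθ : μ * (1 / 2 * So) ≤ θ)
    (hθ'pos : 0 < θ') (hθ'le : θ' ≤ 1 / 4) (hθμ : θ' * K2 ≤ μ * (o ^ 2 / 4)) :
    ∀ g c : ℝ, 0 < g → g ≤ δ → 0 ≤ c → c ≤ δ → ∀ A : Matrix Q Q ℝ, A.IsSymm →
    (∀ i j, |A i j| ≤ K0 * c) → ∑ i, A i i / om i = 0 → ∀ u : (Q → ℝ) → ℝ, Continuous u →
    (∀ a : Q → ℝ, n2 a ≤ δ ^ 2 →
      1 / 2 * ∑ i, om i ^ 2 * a i ^ 2 + 1 / 2 * ∑ i, a i * (A.mulVec a) i -
        K0 * (c ^ 2 * n2 a + nr a ^ 3) ≤ u a) →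
    ∀ f : (Q → ℝ) → ℝ, ContDiff ℝ 1 f → (∀ a, f a ≠ 0 → n2 a < δ ^ 2) →
    (∫ a, (1 / 2 * So - θ * c - (1 / 2 * K' * q + 2 * K3 + 2 * K2) * (c ^ 2 + g)) * f a ^ 2) +
        θ' * (o / 2) * ((∫ a, f a ^ 2) - (∫ a, f a * gau om g a) ^ 2) ≤
      ∫ a, (g ^ 2 / 2 * (1 - K0 * (c ^ 2 + g + n2 a)) * g2 f a + 1 / g ^ 2 * u a * f a ^ 2) := by
  subst hq
  subst hSo
  set q : ℝ := (Fintype.card Q : ℝ) with hq
  set So : ℝ := ∑ i, om i with hSo
  have hom : ∀ i, 0 < om i := fun i => ho.trans_le (hoi i)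
  have hSo0 : 0 ≤ So := by rw [hSo]; exact Finset.sum_nonneg fun i _ => (hom i).le
  have homle : ∀ i, om i ≤ So := fun i => by
    rw [hSo]
    exact Finset.single_le_sum (f := om) (fun i _ => (hom i).le) (Finset.mem_univ i)
  have hq0 : 0 ≤ q := by rw [hq]; exact Nat.cast_nonneg _
  have hK'0 : 0 ≤ K' := by rw [hK']; positivity
  have hK'o : K' * o = q ^ 3 * K0 ^ 2 / (4 * o ^ 2) + 2 * K0 := by rw [hK']; field_simp
  have hK2 : 0 ≤ K2 := by rw [hK2e]; positivity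
  have hKK0 : 0 ≤ KK := by rw [hKK]; positivity
  have hτ0 : 0 ≤ τ := by rw [hτ]; positivity
  have hK''0 : 0 ≤ K'' := by rw [hK'']; positivity
  have hK3 : 0 ≤ K3 := by rw [hK3e]; positivity
  have hSEC : ∀ g t c : ℝ, 0 < g → g ≤ δ → 0 ≤ t → K0 * (q ^ 2 + 1) * t ≤ 1 / 4 → 0 ≤ c →
      ∀ u : (Q → ℝ) → ℝ, Continuous u →
    (∀ a : Q → ℝ, n2 a ≤ δ ^ 2 →
      1 / 2 * ∑ i, om i ^ 2 * a i ^ 2 - K0 * (q ^ 2 + 1) * c * n2 a -
        K0 * (q ^ 2 + 1) * nr a ^ 3 ≤ u a) →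
    ∀ f : (Q → ℝ) → ℝ, ContDiff ℝ 1 f → (∀ a, f a ≠ 0 → n2 a < δ ^ 2) →
    (∫ a, (1 / 2 * So - K2 * (t + n2 a) - K2 * c / g ^ 2 * n2 a -
      K2 / g ^ 2 * nr a ^ 3) *
        f a ^ 2) + o / 2 * ((∫ a, f a ^ 2) - (∫ a, f a * gau om g a) ^ 2) ≤
      ∫ a, (g ^ 2 / 2 * (1 - K0 * (q ^ 2 + 1) * (t + n2 a)) * g2 f a +
        1 / g ^ 2 * u a * f a ^ 2) := by
    rw [hK2e]
    exact sec_core Q om (K0 * (q ^ 2 + 1)) o δ ho hoi (by positivity) hδpos hδ2
  have hOSC := osc_core Q (o / 2) KK (4 * K2 + 4) τ K'' δ (by positivity) hKK0 (by positivity)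
    hτ hK'' hδpos hδ3 hδ4
  rw [← hK3e] at hOSC
  set k1 : ℝ := o ^ 2 / 4 with hk1
  have hk1pos : 0 < k1 := by positivity
  -- the radius
  set D : ℝ := 1 + q ^ 2 * K0 / o + K' + K0 + q ^ 2 * K0 with hD
  have hDpos : 0 < D := by positivity
  have hD1 : 1 ≤ D := by
    have : 0 ≤ q ^ 2 * K0 / o + K' + K0 + q ^ 2 * K0 := by positivity
    linarith
  have ho2 : o ^ 2 ≤ 1 := by nlinarith
  have ho2' : o ^ 2 ≤ o := by nlinarith
  have hδ16 : δ ≤ 1 / 16 := by nlinarith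
  intro g c hg hgδ hc hcδ A hA hAb hAt u hu hul f hf hfs
  have hc1 : c ≤ 1 := by linarith
  have hcc : c ^ 2 ≤ c := by nlinarith
  have hcs : HasCompactSupport f := cs_of_ball hfs
  have hf0 : Continuous f := hf.continuous
  have hDc : D * c ≤ o ^ 2 / 16 := (mul_le_mul_of_nonneg_left hcδ hDpos.le).trans hδD
  -- products of constants with c
  have hq2K0o : 0 ≤ q ^ 2 * K0 / o := by positivity
  have hb1 : q ^ 2 * K0 / o * c ≤ o ^ 2 / 16 := by
    refine le_trans (mul_le_mul_of_nonneg_right ?_ hc) hDc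
    have : 0 ≤ K' + K0 + q ^ 2 * K0 := by positivity
    linarith
  have hb2 : K' * c ≤ o ^ 2 / 16 := by
    refine le_trans (mul_le_mul_of_nonneg_right ?_ hc) hDc
    have : 0 ≤ K0 + q ^ 2 * K0 := by positivity
    linarith
  have hb3 : K0 * c ≤ o ^ 2 / 16 := by
    refine le_trans (mul_le_mul_of_nonneg_right ?_ hc) hDc
    have : 0 ≤ q ^ 2 * K0 := by positivity
    linarith
  have hb3' : K0 * δ ≤ o ^ 2 / 16 := by
    refine le_trans (mul_le_mul_of_nonneg_right ?_ hδpos.le) hδD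
    have : 0 ≤ q ^ 2 * K0 := by positivity
    linarith
  have hb4 : q ^ 2 * K0 * c ≤ o ^ 2 / 16 := by
    refine le_trans (mul_le_mul_of_nonneg_right ?_ hc) hDc
    have : 0 ≤ K' + K0 := by positivity
    linarith
  have hbA : ∀ a : Q → ℝ, |bil A a| ≤ K0 * c * q ^ 2 * n2 a := fun a => bil_abs A (K0 * c) hAb a
  have hul' : ∀ a : Q → ℝ, n2 a ≤ δ ^ 2 →
      1 / 2 * ∑ i, om i ^ 2 * a i ^ 2 + 1 / 2 * bil A a -
        K0 * (c ^ 2 * n2 a + nr a ^ 3) ≤ u a := hul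
  have hfs2 := hfs
  have hfs3 := hfs
  have hn2c := continuous_n2 (Q := Q)
  have hnrc := continuous_nr (Q := Q)
  have hc20 : 0 ≤ c ^ 2 := sq_nonneg c
  have ht0 : 0 ≤ c ^ 2 + g := by positivity
  have ht2 : c ^ 2 + g ≤ 2 * δ := by linarith
  have htS : K0 * (q ^ 2 + 1) * (c ^ 2 + g) ≤ 1 / 4 := by
    have := mul_le_mul_of_nonneg_left ht2 (show 0 ≤ K0 * (q ^ 2 + 1) by positivity)
    linarith
  have htO : KK * (c ^ 2 + g) ≤ 1 / 4 := by
    have := mul_le_mul_of_nonneg_left ht2 hKK0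
    linarith
  set E : ℝ := ∫ a, (g ^ 2 / 2 * (1 - K0 * (c ^ 2 + g + n2 a)) * g2 f a +
    1 / g ^ 2 * u a * f a ^ 2) with hE
  set Gap : ℝ := (∫ a, f a ^ 2) - (∫ a, f a * gau om g a) ^ 2 with hGap
  -- second bound
  have B2 : (∫ a, (1 / 2 * So - K2 * (c ^ 2 + g + n2 a) - K2 * c / g ^ 2 * n2 a -
      K2 / g ^ 2 * nr a ^ 3) * f a ^ 2) + o / 2 * Gap ≤ E := by
    set L : (Q → ℝ) → ℝ := fun a => 1 / 2 * ∑ i, om i ^ 2 * a i ^ 2 -
      K0 * (q ^ 2 + 1) * c * n2 a - K0 * (q ^ 2 + 1) * nr a ^ 3 with hL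
    have hLc : Continuous L := by
      simp only [hL]; fun_prop
    have h1 := hSEC g (c ^ 2 + g) c hg hgδ ht0 htS hc (fun a => max (u a) (L a)) (hu.max hLc)
      (fun a _ => le_max_right _ _) f hf hfs2
    refine h1.trans (mono_E hf hfs hu (hu.max hLc) (fun a ha => ?_) ?_ ht0)
    · refine max_le le_rfl ?_
      refine le_trans ?_ (hul' a ha)
      simp only [hL]
      have h2 := (abs_le.1 (hbA a)).1
      have h3 : K0 * (c ^ 2 * n2 a) ≤ K0 * (c * n2 a) := by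
        refine mul_le_mul_of_nonneg_left ?_ hK0
        exact mul_le_mul_of_nonneg_right hcc (n2_nonneg a)
      have h4 : 0 ≤ K0 * c * q ^ 2 * n2 a := by
        have := n2_nonneg a
        positivity
      have h5 : 0 ≤ K0 * q ^ 2 * nr a ^ 3 := by
        have := nr_nonneg a
        positivity
      have e1 : K0 * (q ^ 2 + 1) * c * n2 a = K0 * c * q ^ 2 * n2 a + K0 * (c * n2 a) := by ring
      have e2 : K0 * (q ^ 2 + 1) * nr a ^ 3 = K0 * q ^ 2 * nr a ^ 3 + K0 * nr a ^ 3 := by ring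
      have e3 : K0 * (c ^ 2 * n2 a + nr a ^ 3) = K0 * (c ^ 2 * n2 a) + K0 * nr a ^ 3 := by ring
      rw [e1, e2, e3]
      linarith
    · nlinarith [mul_nonneg hK0 (sq_nonneg q)]
  -- first bound
  have B1 : (∫ a, (1 / 2 * (So - K' * c ^ 2 * q) - K3 * (c ^ 2 + g + g) +
      (4 * K2 + 4) / g ^ 2 * nr a ^ 3) * f a ^ 2) ≤ E := by
    set S : Matrix Q Q ℝ := SS om A (K' * c ^ 2) with hS
    have hsyl : ∀ i j, |syl om A i j| ≤ K0 * c / (2 * o) := by
      intro i j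
      simp only [syl, Matrix.of_apply]
      have h1 : 2 * o ≤ om i + om j := by linarith [hoi i, hoi j]
      have h0 : 0 < om i + om j := by linarith
      rw [abs_div, abs_of_pos h0]
      exact div_le_div₀ (by positivity) (hAb i j) (by positivity) h1
    have hKc : K0 * c / (2 * o) ≤ K0 / (2 * o) := by
      refine div_le_div_of_nonneg_right ?_ (by positivity)
      nlinarith
    have hSb : ∀ i j, |S i j| ≤ KK := by
      intro i j
      simp only [hS, SS, Matrix.add_apply]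
      have h1 : |Matrix.diagonal (fun i => om i - K' * c ^ 2) i j| ≤ So + K' := by
        by_cases h : i = j
        · subst h
          rw [Matrix.diagonal_apply_eq, abs_le]
          have h2 := homle i
          have h3 := (hom i).le
          have h4 : K' * c ^ 2 ≤ K' * 1 := mul_le_mul_of_nonneg_left (by nlinarith) hK'0
          have h5 : 0 ≤ K' * c ^ 2 := by positivity
          constructor <;> linarith
        · rw [Matrix.diagonal_apply_ne _ h, abs_zero]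
          positivity
      calc |Matrix.diagonal (fun i => om i - K' * c ^ 2) i j + syl om A i j| ≤
            |Matrix.diagonal (fun i => om i - K' * c ^ 2) i j| + |syl om A i j| :=
            abs_add_le _ _
        _ ≤ (So + K') + K0 / (2 * o) := add_le_add h1 ((hsyl i j).trans hKc)
        _ ≤ KK := by rw [hKK]; linarith
    have hbs : ∀ a : Q → ℝ, |bil (syl om A) a| ≤ K0 * c / (2 * o) * q ^ 2 * n2 a :=
      fun a => bil_abs _ _ hsyl a
    have hexlow : ∀ a : Q → ℝ, o * n2 a ≤ ex om a := by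
      intro a
      unfold n2 ex
      rw [Finset.mul_sum]
      exact Finset.sum_le_sum fun i _ => mul_le_mul_of_nonneg_right (hoi i) (sq_nonneg _)
    have hbs' : ∀ a : Q → ℝ, |bil (syl om A) a| ≤ o ^ 2 / 32 * n2 a := by
      intro a
      refine (hbs a).trans (mul_le_mul_of_nonneg_right ?_ (n2_nonneg a))
      have : K0 * c / (2 * o) * q ^ 2 = 1 / 2 * (q ^ 2 * K0 / o * c) := by ring
      rw [this]
      linarith
    have hSlow : ∀ a : Q → ℝ, o / 2 * n2 a ≤ ∑ i, a i * (S.mulVec a) i := by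
      intro a
      have h1 : ∑ i, a i * (S.mulVec a) i = bil S a := rfl
      rw [h1, hS, SS_bil]
      have h2 := hexlow a
      have h3 := (abs_le.1 (hbs' a)).1
      have h4 : K' * c ^ 2 * n2 a ≤ o ^ 2 / 16 * n2 a := by
        refine mul_le_mul_of_nonneg_right ?_ (n2_nonneg a)
        refine le_trans ?_ hb2
        exact mul_le_mul_of_nonneg_left hcc hK'0
      have h5 : o ^ 2 * n2 a ≤ o * n2 a := mul_le_mul_of_nonneg_right ho2' (n2_nonneg a)
      have h6 : 0 ≤ o * n2 a := mul_nonneg ho.le (n2_nonneg a)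
      linarith
    have hSn2 : ∀ a : Q → ℝ, 1 / 2 * n2 (S.mulVec a) ≤
        1 / 2 * (∑ i, om i ^ 2 * a i ^ 2) + 1 / 2 * bil A a - K0 * c ^ 2 * n2 a := by
      intro a
      rw [hS, SS_n2 om hom A hA]
      have hN := n2_nonneg a
      have h1 := n2_mulVec_le (syl om A) _ hsyl a
      have h2 : q ^ 3 * (K0 * c / (2 * o)) ^ 2 * n2 a =
          q ^ 3 * K0 ^ 2 / (4 * o ^ 2) * (c ^ 2 * n2 a) := by ring
      rw [h2] at h1
      have h3 := hexlow a
      have h4 : K' * c ^ 2 * (o * n2 a) ≤ K' * c ^ 2 * ex om a :=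
        mul_le_mul_of_nonneg_left h3 (by positivity)
      have h5 : K' * c ^ 2 * (-(o ^ 2 / 32 * n2 a)) ≤ K' * c ^ 2 * bil (syl om A) a :=
        mul_le_mul_of_nonneg_left (abs_le.1 (hbs' a)).1 (by positivity)
      have h6 : (K' * c ^ 2) ^ 2 * n2 a ≤ K' * c ^ 2 * (o ^ 2 / 16 * n2 a) := by
        have h7 : K' * c ^ 2 ≤ o ^ 2 / 16 :=
          le_trans (mul_le_mul_of_nonneg_left hcc hK'0) hb2
        calc (K' * c ^ 2) ^ 2 * n2 a = K' * c ^ 2 * (K' * c ^ 2 * n2 a) := by ring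
          _ ≤ _ := mul_le_mul_of_nonneg_left (mul_le_mul_of_nonneg_right h7 hN) (by positivity)
      have h7 : K' * c ^ 2 * (o ^ 2 * n2 a) ≤ K' * c ^ 2 * (o * n2 a) :=
        mul_le_mul_of_nonneg_left (mul_le_mul_of_nonneg_right ho2' hN) (by positivity)
      have h8 : K' * c ^ 2 * (o * n2 a) =
          (q ^ 3 * K0 ^ 2 / (4 * o ^ 2) + 2 * K0) * (c ^ 2 * n2 a) := by
        rw [← hK'o]; ring
      have h9 : 0 ≤ K' * c ^ 2 * (o * n2 a) := by positivity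
      have h10 : 0 ≤ K' * c ^ 2 * (o ^ 2 * n2 a) := by positivity
      have e1 : K' * c ^ 2 * (-(o ^ 2 / 32 * n2 a)) =
          -(1 / 32 * (K' * c ^ 2 * (o ^ 2 * n2 a))) := by ring
      have e2 : K' * c ^ 2 * (o ^ 2 / 16 * n2 a) = 1 / 16 * (K' * c ^ 2 * (o ^ 2 * n2 a)) := by
        ring
      have e3 : 2 * (K' * c ^ 2) * ex om a = 2 * (K' * c ^ 2 * ex om a) := by ring
      have e4 : 2 * (K' * c ^ 2) * bil (syl om A) a = 2 * (K' * c ^ 2 * bil (syl om A) a) := by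
        ring
      have e5 : (q ^ 3 * K0 ^ 2 / (4 * o ^ 2) + 2 * K0) * (c ^ 2 * n2 a) =
          q ^ 3 * K0 ^ 2 / (4 * o ^ 2) * (c ^ 2 * n2 a) + 2 * (K0 * c ^ 2 * n2 a) := by ring
      rw [e1] at h5
      rw [e2] at h6
      rw [e5] at h8
      rw [e3, e4]
      linarith
    have htr : S.trace = So - K' * c ^ 2 * q := SS_trace om hom A hAt _
    set L : (Q → ℝ) → ℝ := fun a => 1 / 2 * n2 (S.mulVec a) - KK * nr a ^ 3 with hL
    have hmc : ∀ i, Continuous fun a : Q → ℝ => (S.mulVec a) i := fun i =>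
      (contDiff_mulVec S i (n := 1)).continuous
    have hnSc : Continuous fun a : Q → ℝ => n2 (S.mulVec a) := by
      unfold n2
      exact continuous_finsetSum _ fun i _ => (hmc i).pow 2
    have hLc : Continuous L := by
      simp only [hL]; fun_prop
    have h1 := hOSC g (c ^ 2 + g) hg hgδ ht0 htO S (SS_symm om A hA _) hSb hSlow
      (fun a => max (u a) (L a)) (hu.max hLc) (fun a _ => le_max_right _ _) f hf hfs3
    rw [htr] at h1
    refine h1.trans (mono_E hf hfs hu (hu.max hLc) (fun a ha => ?_) ?_ ht0)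
    · refine max_le le_rfl ?_
      refine le_trans ?_ (hul' a ha)
      simp only [hL]
      have h2 := hSn2 a
      have h3 : K0 * nr a ^ 3 ≤ KK * nr a ^ 3 := by
        refine mul_le_mul_of_nonneg_right ?_ (pow_nonneg (nr_nonneg a) 3)
        rw [hKK]
        have : 0 ≤ So + K0 / (2 * o) + K' := by positivity
        linarith
      linarith
    · rw [hKK]
      have : 0 ≤ So + K0 / (2 * o) + K' := by positivity
      linarith
  -- third bound
  have hi3 : Integrable fun a => k1 * n2 a / g ^ 2 * f a ^ 2 :=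
    int_f2 hf0 hcs (by fun_prop)
  have B3 : (∫ a, k1 * n2 a / g ^ 2 * f a ^ 2) ≤ E := by
    refine integral_mono hi3 (int_E hf hcs hu K0 (c ^ 2 + g) g) fun a => ?_
    simp only
    by_cases ha : n2 a ≤ δ ^ 2
    · have hN := n2_nonneg a
      have hr0 := nr_nonneg a
      have hrδ : nr a ≤ δ := nr_le hδpos.le ha
      have hkin : 0 ≤ g ^ 2 / 2 * (1 - K0 * (c ^ 2 + g + n2 a)) * g2 f a := by
        refine mul_nonneg (mul_nonneg (by positivity) ?_) (g2_nonneg f a)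
        have h1 : K0 * c ^ 2 ≤ K0 * c := mul_le_mul_of_nonneg_left hcc hK0
        have h2 : K0 * n2 a ≤ K0 * δ := by
          refine mul_le_mul_of_nonneg_left (ha.trans ?_) hK0
          rw [sq]
          exact mul_le_of_le_one_left hδpos.le (by linarith)
        have h3 : K0 * (c ^ 2 + g + n2 a) = K0 * c ^ 2 + K0 * g + K0 * n2 a := by ring
        have h4 : K0 * g ≤ K0 * δ := mul_le_mul_of_nonneg_left hgδ hK0
        rw [h3]
        linarith
      have hpot : k1 * n2 a / g ^ 2 * f a ^ 2 ≤ 1 / g ^ 2 * u a * f a ^ 2 := by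
        refine mul_le_mul_of_nonneg_right ?_ (sq_nonneg _)
        have h1 : 1 / g ^ 2 * u a = u a / g ^ 2 := by ring
        rw [h1]
        refine div_le_div_of_nonneg_right ?_ (by positivity)
        refine le_trans ?_ (hul' a ha)
        have h2 : o ^ 2 * n2 a ≤ ∑ i, om i ^ 2 * a i ^ 2 := by
          unfold n2
          rw [Finset.mul_sum]
          exact Finset.sum_le_sum fun i _ =>
            mul_le_mul_of_nonneg_right (pow_le_pow_left₀ ho.le (hoi i) 2) (sq_nonneg _)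
        have h3 := (abs_le.1 (hbA a)).1
        have h4 : K0 * c * q ^ 2 * n2 a ≤ o ^ 2 / 16 * n2 a := by
          refine mul_le_mul_of_nonneg_right ?_ hN
          calc K0 * c * q ^ 2 = q ^ 2 * K0 * c := by ring
            _ ≤ _ := hb4
        have h5 : K0 * (c ^ 2 * n2 a) ≤ o ^ 2 / 16 * n2 a := by
          calc K0 * (c ^ 2 * n2 a) = K0 * c ^ 2 * n2 a := by ring
            _ ≤ K0 * c * n2 a := by
              refine mul_le_mul_of_nonneg_right (mul_le_mul_of_nonneg_left hcc hK0) hN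
            _ ≤ _ := mul_le_mul_of_nonneg_right hb3 hN
        have h6 : K0 * nr a ^ 3 ≤ o ^ 2 / 16 * n2 a := by
          calc K0 * nr a ^ 3 = K0 * nr a * n2 a := by rw [← nr_sq]; ring
            _ ≤ K0 * δ * n2 a :=
              mul_le_mul_of_nonneg_right (mul_le_mul_of_nonneg_left hrδ hK0) hN
            _ ≤ _ := mul_le_mul_of_nonneg_right hb3' hN
        have h7 : 0 ≤ o ^ 2 * n2 a := by positivity
        have h8 : k1 * n2 a = 1 / 4 * (o ^ 2 * n2 a) := by rw [hk1]; ring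
        have h9 : o ^ 2 / 16 * n2 a = 1 / 16 * (o ^ 2 * n2 a) := by ring
        rw [h9] at h4 h5 h6
        rw [h8]
        have h10 : K0 * (c ^ 2 * n2 a + nr a ^ 3) = K0 * (c ^ 2 * n2 a) + K0 * nr a ^ 3 := by
          ring
        rw [h10]
        linarith
      linarith
    · rw [f_out hfs (not_le.1 ha), g2_out hfs (not_le.1 ha)]
      simp
  -- combination
  have hμc : μ * c ≤ 1 / 4 := by nlinarith
  have hμc0 : 0 ≤ μ * c := mul_nonneg hμpos.le hc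
  have ha0 : 0 ≤ 1 - θ' - μ * c := by linarith
  have hi1 : Integrable fun a => (1 / 2 * (So - K' * c ^ 2 * q) - K3 * (c ^ 2 + g + g) +
      (4 * K2 + 4) / g ^ 2 * nr a ^ 3) * f a ^ 2 := int_f2 hf0 hcs (by fun_prop)
  have hi2 : Integrable fun a => (1 / 2 * So - K2 * (c ^ 2 + g + n2 a) - K2 * c / g ^ 2 * n2 a -
      K2 / g ^ 2 * nr a ^ 3) * f a ^ 2 := int_f2 hf0 hcs (by fun_prop)
  have hi0 : Integrable fun a => (1 / 2 * So - θ * c - (1 / 2 * K' * q + 2 * K3 + 2 * K2) * (c ^ 2 + g)) *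
      f a ^ 2 := int_f2 hf0 hcs (by fun_prop)
  have hmain : (∫ a, (1 / 2 * So - θ * c - (1 / 2 * K' * q + 2 * K3 + 2 * K2) * (c ^ 2 + g)) *
      f a ^ 2) ≤
      (1 - θ' - μ * c) * (∫ a, (1 / 2 * (So - K' * c ^ 2 * q) - K3 * (c ^ 2 + g + g) +
        (4 * K2 + 4) / g ^ 2 * nr a ^ 3) * f a ^ 2) +
      θ' * (∫ a, (1 / 2 * So - K2 * (c ^ 2 + g + n2 a) - K2 * c / g ^ 2 * n2 a -
        K2 / g ^ 2 * nr a ^ 3) * f a ^ 2) +
      μ * c * (∫ a, k1 * n2 a / g ^ 2 * f a ^ 2) := by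
    rw [int3 hi1 hi2 hi3]
    refine integral_mono hi0 (((hi1.const_mul _).add (hi2.const_mul _)).add (hi3.const_mul _))
      fun a => ?_
    simp only
    by_cases ha : n2 a ≤ δ ^ 2
    · have hrδ : nr a ≤ δ := nr_le hδpos.le ha
      have h1 := fib_combU (So := So) (θ := θ) (K2 := K2) (K3 := K3) (k1 := k1) (q := q)
        (K' := K') hg hc hc1 hK2 hK3 hq0 hK'0 (nr_nonneg a) (by linarith) hμpos.le hμle hμθ
        hθ'pos.le hθ'le hθμ
      rw [nr_sq] at h1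
      have h2 := mul_le_mul_of_nonneg_right h1 (sq_nonneg (f a))
      refine h2.trans (le_of_eq ?_)
      ring
    · rw [f_out hfs (not_le.1 ha)]
      simp
  have c1 := mul_le_mul_of_nonneg_left B1 ha0
  have c2 := mul_le_mul_of_nonneg_left B2 hθ'pos.le
  have c3 := mul_le_mul_of_nonneg_left B3 hμc0
  have hsum : (1 - θ' - μ * c) * E + θ' * E + μ * c * E = E := by ring
  have e1 : θ' * (o / 2) * Gap = θ' * (o / 2 * Gap) := by ring
  rw [mul_add] at c2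
  rw [e1]
  linarith

theorem t_FIBU : S_FIBU := by
  refine ⟨36, 600000, by norm_num, ?_⟩
  intro Q _ _ om K0 θ Λ M hΛ hcard hom hK0 hK0Λ hθ hM g c hg hgM hc hcM A hA hAb hAt u hu hul
    f hf hfs
  have hΛ0 : 0 < Λ := by linarith
  set o : ℝ := Λ⁻¹ with ho
  have ho0 : 0 < o := inv_pos.2 hΛ0
  have ho1 : o ≤ 1 := inv_le_one_of_one_le₀ hΛ
  have hoΛ : o * Λ = 1 := inv_mul_cancel₀ hΛ0.ne'
  have hp : ∀ m n : ℕ, m ≤ n → Λ ^ m ≤ Λ ^ n := fun m n h => pow_le_pow_right₀ hΛ h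
  have h1p : ∀ n : ℕ, 1 ≤ Λ ^ n := fun n => one_le_pow₀ hΛ
  have hMpos : 0 < M := by rw [hM]; positivity
  have hMn : ∀ n : ℕ, n ≤ 36 → 600000 * Λ ^ n ≤ M := fun n hn => by
    rw [hM]
    exact mul_le_mul_of_nonneg_left (hp n 36 hn) (by norm_num)
  set q : ℝ := (Fintype.card Q : ℝ) with hq
  have hq0 : 0 ≤ q := Nat.cast_nonneg _
  set So : ℝ := ∑ i, om i with hSo
  have hom0 : ∀ i, 0 < om i := fun i => ho0.trans_le (hom i).1
  have hSo0 : 0 ≤ So := Finset.sum_nonneg fun i _ => (hom0 i).le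
  have hSoΛ : So ≤ Λ ^ 2 := by
    calc So ≤ ∑ _i : Q, Λ := Finset.sum_le_sum fun i _ => (hom i).2
      _ = q * Λ := by simp [hq]
      _ ≤ Λ * Λ := mul_le_mul_of_nonneg_right hcard hΛ0.le
      _ = _ := by ring
  set K' : ℝ := (q ^ 3 * K0 ^ 2 / (4 * o ^ 2) + 2 * K0) / o with hK'
  have hK'0 : 0 ≤ K' := by positivity
  have hK'e : K' = q ^ 3 * K0 ^ 2 * Λ ^ 3 / 4 + 2 * (K0 * Λ) := by
    rw [hK', ho]
    field_simp
  have hK'Λ : K' ≤ 3 * Λ ^ 8 := by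
    have h1 : q ^ 3 * K0 ^ 2 * Λ ^ 3 ≤ Λ ^ 3 * Λ ^ 2 * Λ ^ 3 := by gcongr
    have h2 : K0 * Λ ≤ Λ * Λ := mul_le_mul_of_nonneg_right hK0Λ hΛ0.le
    have h3 : Λ * Λ = Λ ^ 2 := by ring
    have h4 : Λ ^ 3 * Λ ^ 2 * Λ ^ 3 = Λ ^ 8 := by ring
    have h5 := hp 2 8 (by norm_num)
    rw [hK'e]
    linarith [h1p 8]
  set K2 : ℝ := K0 * (q ^ 2 + 1) * (2 * So + 1) with hK2
  have hK20 : 0 ≤ K2 := by positivity
  have hq2 : q ^ 2 + 1 ≤ 2 * Λ ^ 2 := by
    have h1 : q ^ 2 ≤ Λ ^ 2 := pow_le_pow_left₀ hq0 hcard 2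
    linarith [h1p 2]
  have hK2Λ : K2 ≤ 6 * Λ ^ 5 := by
    have h2 : 2 * So + 1 ≤ 3 * Λ ^ 2 := by linarith [h1p 2]
    calc K2 ≤ Λ * (2 * Λ ^ 2) * (3 * Λ ^ 2) := by rw [hK2]; gcongr
      _ = _ := by ring
  set KK : ℝ := K0 + So + K0 / (2 * o) + K' with hKK
  have hKK0 : 0 ≤ KK := by positivity
  have hKKΛ : KK ≤ 6 * Λ ^ 8 := by
    have h1 : K0 / (2 * o) = K0 * Λ / 2 := by
      rw [ho]
      field_simp
    have h2 : K0 * Λ ≤ Λ * Λ := mul_le_mul_of_nonneg_right hK0Λ hΛ0.le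
    have h3 : Λ * Λ = Λ ^ 2 := by ring
    have h5 := hp 2 8 (by norm_num)
    have h6 := hp 1 8 (by norm_num)
    rw [pow_one] at h6
    rw [hKK, h1]
    linarith [h1p 8]
  set τ : ℝ := (KK + (4 * K2 + 4) + 1) / (o / 2) with hτ
  have hτ0 : 0 ≤ τ := by positivity
  have hτΛ : τ ≤ 70 * Λ ^ 9 := by
    have h1 : τ = (KK + (4 * K2 + 4) + 1) * (2 * Λ) := by
      rw [hτ, ho]
      field_simp
    have h5 := hp 5 8 (by norm_num)
    have h2 : KK + (4 * K2 + 4) + 1 ≤ 35 * Λ ^ 8 := by linarith [h1p 8]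
    rw [h1]
    calc (KK + (4 * K2 + 4) + 1) * (2 * Λ) ≤ 35 * Λ ^ 8 * (2 * Λ) :=
          mul_le_mul_of_nonneg_right h2 (by positivity)
      _ = _ := by ring
  set K'' : ℝ := q * KK ^ 2 + 3 * τ * (q + 1) + 2 * KK ^ 2 * q ^ 2 with hK''
  have hK''0 : 0 ≤ K'' := by positivity
  have hK''Λ : K'' ≤ 528 * Λ ^ 18 := by
    have h1 : q * KK ^ 2 ≤ Λ * (6 * Λ ^ 8) ^ 2 := by gcongr
    have h2 : 3 * τ * (q + 1) ≤ 3 * (70 * Λ ^ 9) * (2 * Λ) := by
      have : q + 1 ≤ 2 * Λ := by linarith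
      gcongr
    have h3 : 2 * KK ^ 2 * q ^ 2 ≤ 2 * (6 * Λ ^ 8) ^ 2 * Λ ^ 2 := by gcongr
    have e1 : Λ * (6 * Λ ^ 8) ^ 2 = 36 * Λ ^ 17 := by ring
    have e2 : 3 * (70 * Λ ^ 9) * (2 * Λ) = 420 * Λ ^ 10 := by ring
    have e3 : 2 * (6 * Λ ^ 8) ^ 2 * Λ ^ 2 = 72 * Λ ^ 18 := by ring
    have h4 := hp 17 18 (by norm_num)
    have h5 := hp 10 18 (by norm_num)
    rw [hK'']
    linarith
  set K3 : ℝ := K'' + K'' * (K'' + 1) with hK3
  have hK30 : 0 ≤ K3 := by positivity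
  have hK3Λ : K3 ≤ 279840 * Λ ^ 36 := by
    have h1 : K'' * (K'' + 1) ≤ 528 * Λ ^ 18 * (529 * Λ ^ 18) := by
      have : K'' + 1 ≤ 529 * Λ ^ 18 := by linarith [h1p 18]
      gcongr
    have e1 : 528 * Λ ^ 18 * (529 * Λ ^ 18) = 279312 * Λ ^ 36 := by ring
    have h2 := hp 18 36 (by norm_num)
    rw [hK3]
    linarith
  set δ : ℝ := M⁻¹ with hδ
  have hδ0 : 0 < δ := inv_pos.2 hMpos
  have hδM : δ * M = 1 := inv_mul_cancel₀ hMpos.ne'
  have hle : ∀ X : ℝ, X ≤ M → X * δ ≤ 1 := fun X hX => by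
    rw [mul_comm, ← hδM]
    exact mul_le_mul_of_nonneg_left hX hδ0.le
  have hδ2 : δ ≤ 1 / (2 * (K0 * (q ^ 2 + 1) + 1)) := by
    rw [le_div_iff₀ (by positivity), mul_comm]
    refine hle _ ?_
    have h1 : K0 * (q ^ 2 + 1) ≤ Λ * (2 * Λ ^ 2) := by gcongr
    have e1 : Λ * (2 * Λ ^ 2) = 2 * Λ ^ 3 := by ring
    linarith [hMn 3 (by norm_num), h1p 3]
  have hδ3 : δ ≤ 1 / (2 * (KK + 1)) := by
    rw [le_div_iff₀ (by positivity), mul_comm]
    refine hle _ ?_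
    linarith [hMn 8 (by norm_num), h1p 8]
  have hδ5 : 8 * (K0 * (q ^ 2 + 1)) * δ ≤ 1 := by
    refine hle _ ?_
    have h1 : K0 * (q ^ 2 + 1) ≤ Λ * (2 * Λ ^ 2) := by gcongr
    have e1 : Λ * (2 * Λ ^ 2) = 2 * Λ ^ 3 := by ring
    linarith [hMn 3 (by norm_num), h1p 3]
  have hδ6 : 8 * KK * δ ≤ 1 := by
    refine hle _ ?_
    linarith [hMn 8 (by norm_num), h1p 8]
  have hδ4 : 9 * τ * δ ≤ o / 2 := by
    have h1 : 9 * τ * (2 * Λ) * δ ≤ 1 := by
      refine hle _ ?_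
      have h2 : 9 * τ * (2 * Λ) ≤ 9 * (70 * Λ ^ 9) * (2 * Λ) := by gcongr
      have e1 : 9 * (70 * Λ ^ 9) * (2 * Λ) = 1260 * Λ ^ 10 := by ring
      linarith [hMn 10 (by norm_num), h1p 10]
    have h2 : 9 * τ * δ = 9 * τ * (2 * Λ) * δ * (o / 2) := by
      calc 9 * τ * δ = 9 * τ * δ * (o * Λ) := by rw [hoΛ, mul_one]
        _ = _ := by ring
    rw [h2]
    exact mul_le_of_le_one_left (by positivity) h1
  have hδD : (1 + q ^ 2 * K0 / o + K' + K0 + q ^ 2 * K0) * δ ≤ o ^ 2 / 16 := by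
    set D : ℝ := 1 + q ^ 2 * K0 / o + K' + K0 + q ^ 2 * K0 with hD
    have hD0 : 0 ≤ D := by positivity
    have hDΛ : D ≤ 7 * Λ ^ 8 := by
      have h1 : q ^ 2 * K0 / o = q ^ 2 * K0 * Λ := by
        rw [ho]; field_simp
      have h2 : q ^ 2 * K0 * Λ ≤ Λ ^ 2 * Λ * Λ := by gcongr
      have h3 : q ^ 2 * K0 ≤ Λ ^ 2 * Λ := by gcongr
      have e2 : Λ ^ 2 * Λ * Λ = Λ ^ 4 := by ring
      have e3 : Λ ^ 2 * Λ = Λ ^ 3 := by ring
      have h4 := hp 4 8 (by norm_num)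
      have h5 := hp 3 8 (by norm_num)
      have h6 := hp 1 8 (by norm_num)
      rw [pow_one] at h6
      rw [hD, h1]
      linarith [h1p 8]
    have h1 : D * (16 * Λ ^ 2) * δ ≤ 1 := by
      refine hle _ ?_
      have h2 : D * (16 * Λ ^ 2) ≤ 7 * Λ ^ 8 * (16 * Λ ^ 2) := by gcongr
      have e1 : 7 * Λ ^ 8 * (16 * Λ ^ 2) = 112 * Λ ^ 10 := by ring
      linarith [hMn 10 (by norm_num), h1p 10]
    have h2 : D * δ = D * (16 * Λ ^ 2) * δ * (o ^ 2 / 16) := by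
      calc D * δ = D * δ * (o * Λ) ^ 2 := by rw [hoΛ]; ring
        _ = _ := by ring
    rw [h2]
    exact mul_le_of_le_one_left (by positivity) h1
  set μ : ℝ := o ^ 3 / 4 with hμ
  have hμ0 : 0 < μ := by positivity
  have ho3 : o ^ 3 ≤ 1 := pow_le_one₀ ho0.le ho1
  have hμ4 : μ ≤ 1 / 4 := by rw [hμ]; linarith
  have hμθ : μ * (1 / 2 * So) ≤ θ := by
    refine le_trans ?_ hθ
    have h1 : μ * (1 / 2 * So) ≤ μ * (1 / 2 * Λ ^ 2) := by gcongr
    have h2 : μ * (1 / 2 * Λ ^ 2) = o * (o * Λ) ^ 2 / 8 := by rw [hμ]; ring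
    rw [hoΛ] at h2
    linarith
  set θ' : ℝ := 2 * Λ * δ with hθ'
  have hθ'0 : 0 < θ' := by positivity
  have hθ'4 : θ' ≤ 1 / 4 := by
    have h1 : 8 * Λ * δ ≤ 1 := by
      refine hle _ ?_
      have := hMn 1 (by norm_num)
      rw [pow_one] at this
      linarith
    rw [hθ']
    linarith
  have hθμ : θ' * K2 ≤ μ * (o ^ 2 / 4) := by
    have h1 : 12 * Λ ^ 6 * (16 * Λ ^ 5) * δ ≤ 1 := by
      refine hle _ ?_
      have e1 : 12 * Λ ^ 6 * (16 * Λ ^ 5) = 192 * Λ ^ 11 := by ring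
      linarith [hMn 11 (by norm_num), h1p 11]
    have h2 : θ' * K2 ≤ θ' * (6 * Λ ^ 5) := by gcongr
    have h3 : θ' * (6 * Λ ^ 5) = 12 * Λ ^ 6 * (16 * Λ ^ 5) * δ * (o ^ 5 / 16) := by
      calc θ' * (6 * Λ ^ 5) = 12 * Λ ^ 6 * δ * (o * Λ) ^ 5 := by rw [hoΛ, hθ']; ring
        _ = _ := by ring
    have h4 : 12 * Λ ^ 6 * (16 * Λ ^ 5) * δ * (o ^ 5 / 16) ≤ o ^ 5 / 16 :=
      mul_le_of_le_one_left (by positivity) h1
    have h5 : μ * (o ^ 2 / 4) = o ^ 5 / 16 := by rw [hμ]; ring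
    linarith
  have key := fib_core Q om K0 θ o δ μ θ' K' K2 KK τ K'' K3 q So hq hSo ho0 ho1
    (fun i => (hom i).1) hK0 hK' hK2 hKK hτ hK'' hK3 hδ0 hδ2 hδ3 hδ5 hδ6 hδ4 hδD hμ0 hμ4 hμθ hθ'0 hθ'4
    hθμ g c hg hgM hc hcM A hA hAb hAt u hu hul f hf hfs
  have e1 : θ' * (o / 2) = δ := by
    calc θ' * (o / 2) = (o * Λ) * δ := by rw [hθ']; ring
      _ = δ := by rw [hoΛ, one_mul]
  rw [e1] at key
  refine le_trans (add_le_add ?_ le_rfl) key
  rw [integral_const_mul, integral_const_mul]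
  have hf2 : 0 ≤ ∫ a, f a ^ 2 := integral_nonneg fun a => sq_nonneg _
  refine mul_le_mul_of_nonneg_right ?_ hf2
  have hKb : 1 / 2 * K' * q + 2 * K3 + 2 * K2 ≤ M := by
    have h1 : 1 / 2 * K' * q ≤ 1 / 2 * (3 * Λ ^ 8) * Λ := by gcongr
    have e2 : 1 / 2 * (3 * Λ ^ 8) * Λ = 3 / 2 * Λ ^ 9 := by ring
    have h2 := hp 9 36 (by norm_num)
    have h3 := hp 5 36 (by norm_num)
    rw [hM]
    linarith [h1p 36]
  have h2 : (1 / 2 * K' * q + 2 * K3 + 2 * K2) * (c ^ 2 + g) ≤ M * (c ^ 2 + g) :=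
    mul_le_mul_of_nonneg_right hKb (by positivity)
  linarith

end Pool.Agent.Q222.LUU
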