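import Pool.Agent.Q77.LU.StmU
import Pool.Agent.Q222.LU.GM

/-!
# Project LU, uniform version, job GMU: moments of the Gaussian with a cut-off
-/

set_option autoImplicit false

namespace Pool.Agent.Q222.LUU

open Pool.Agent.Q77.LU Pool.Agent.Q222.LU MeasureTheory Set Filter Topology
open scoped ContDiff

theorem gm_core (Q : Type) [Fintype Q] [DecidableEq Q] (om : Q → ℝ) (δ Ke K : ℝ)
    (hom : ∀ i, 0 < om i) (hδ : 0 < δ) (hKe' : ∀ a : Q → ℝ, g2 (cu δ) a ≤ Ke)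
    (hK : 8 / δ ^ 2 * (∫ b : Q → ℝ, n2 b * gau om 1 b ^ 2) + Ke + ((∑ i, om i) + Ke) +
      (2 * (∑ i, om i) ^ 2 * (∫ b : Q → ℝ, n2 b ^ 2 * gau om 1 b ^ 2) +
      2 * Ke * (∫ b : Q → ℝ, n2 b * gau om 1 b ^ 2)) +
      (∫ b : Q → ℝ, n2 b * gau om 1 b ^ 2) + (∫ b : Q → ℝ, nr b ^ 3 * gau om 1 b ^ 2) +
      8 / δ ^ 2 * (∫ b : Q → ℝ, n2 b ^ 2 * gau om 1 b ^ 2) ≤ K) :
    ∀ g : ℝ, 0 < g → g ≤ 1 →
    ∀ G : (Q → ℝ) → ℝ, G = (fun a => gau om g a * cutb (4 * n2 a / δ ^ 2)) →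
    ContDiff ℝ ∞ G ∧ HasCompactSupport G ∧
    1 - K * g ^ 2 ≤ ∫ a, G a ^ 2 ∧ ∫ a, G a ^ 2 ≤ 1 ∧
    ∫ a, (g ^ 2 / 2 * g2 G a + 1 / (2 * g ^ 2) * (∑ i, om i ^ 2 * a i ^ 2) * G a ^ 2) ≤
      1 / 2 * (∑ i, om i) + K * g ^ 2 ∧
    ∫ a, g2 G a ≤ K / g ^ 2 ∧ ∫ a, n2 a * g2 G a ≤ K ∧
    ∫ a, n2 a * G a ^ 2 ≤ K * g ^ 2 ∧ ∫ a, nr a ^ 3 * G a ^ 2 ≤ K * g ^ 3 ∧
    (∀ i j, i ≠ j → ∫ a, a i * a j * G a ^ 2 = 0) ∧
    ∀ i, |(∫ a, a i ^ 2 * G a ^ 2) - g ^ 2 / (2 * om i)| ≤ K * g ^ 4 := by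
  have hn2c := continuous_n2 (Q := Q)
  have hnrc := continuous_nr (Q := Q)
  set So : ℝ := ∑ i, om i with hSo
  have hSo0 : 0 ≤ So := Finset.sum_nonneg fun i _ => (hom i).le
  have homle : ∀ i, om i ≤ So := fun i =>
    Finset.single_le_sum (f := om) (fun i _ => (hom i).le) (Finset.mem_univ i)
  set M2 : ℝ := ∫ b : Q → ℝ, n2 b * gau om 1 b ^ 2 with hM2
  set M3 : ℝ := ∫ b : Q → ℝ, nr b ^ 3 * gau om 1 b ^ 2 with hM3
  set M4 : ℝ := ∫ b : Q → ℝ, n2 b ^ 2 * gau om 1 b ^ 2 with hM4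
  have hM2' : 0 ≤ M2 := integral_nonneg fun b => mul_nonneg (n2_nonneg b) (sq_nonneg _)
  have hM3' : 0 ≤ M3 := integral_nonneg fun b =>
    mul_nonneg (pow_nonneg (nr_nonneg b) 3) (sq_nonneg _)
  have hM4' : 0 ≤ M4 := integral_nonneg fun b => mul_nonneg (sq_nonneg _) (sq_nonneg _)
  -- the gradient of the cut-off
  have hcu1 : ContDiff ℝ 1 (cu δ : (Q → ℝ) → ℝ) := (contDiff_cu δ).of_le (by exact_mod_cast le_top)
  have hcuc : Continuous (cu δ : (Q → ℝ) → ℝ) := hcu1.continuous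
  have hcucs : HasCompactSupport (cu δ : (Q → ℝ) → ℝ) := cs_of_ball (cu_supp δ hδ)
  have hg2c : Continuous (g2 (cu δ) : (Q → ℝ) → ℝ) := by
    unfold g2
    exact continuous_finsetSum _ fun i _ => (Pool.Agent.Q31.LU.pd_cont hcu1 i).pow 2
  have hg2n : ∀ a : Q → ℝ, 0 ≤ g2 (cu δ) a := fun a => by
    unfold g2
    exact Finset.sum_nonneg fun i _ => sq_nonneg _
  have hKe : ∀ a : Q → ℝ, |g2 (cu δ) a| ≤ Ke := fun a => by
    rw [abs_of_nonneg (hg2n a)]; exact hKe' a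
  have hKe0 : 0 ≤ Ke := (hg2n 0).trans (hKe' 0)
  have q1 : 0 ≤ 8 / δ ^ 2 * M2 := by positivity
  have q2 : 0 ≤ 2 * So ^ 2 * M4 + 2 * Ke * M2 := by positivity
  have q3 : 0 ≤ 8 / δ ^ 2 * M4 := by positivity
  intro g hg hg1 G hG
  have hG' : ∀ a, G a = gau om g a * cu δ a := fun a => by rw [hG]; rfl
  have hgau := contDiff_gau om g (n := ∞)
  have hgauc := continuous_gau om g
  have hGs : ContDiff ℝ ∞ G := by
    have : G = fun a => gau om g a * cu δ a := by funext a; exact hG' a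
    rw [this]
    exact hgau.mul (contDiff_cu δ)
  have hG1 : ContDiff ℝ 1 G := hGs.of_le (by exact_mod_cast le_top)
  have hGc : Continuous G := hG1.continuous
  have hGsupp : ∀ a, G a ≠ 0 → n2 a < (δ / 2) ^ 2 := fun a ha => cu_supp δ hδ a (by
    intro h; exact ha (by rw [hG', h, mul_zero]))
  have hGcs : HasCompactSupport G := cs_of_ball hGsupp
  have hGsq : ∀ a, G a ^ 2 = gau om g a ^ 2 * cu δ a ^ 2 := fun a => by rw [hG', mul_pow]
  have hGsq_le : ∀ a, G a ^ 2 ≤ gau om g a ^ 2 := fun a => by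
    rw [hGsq]
    have := mul_le_mul_of_nonneg_left (cu_sq_le δ a) (sq_nonneg (gau om g a))
    rwa [mul_one] at this
  -- integrability of the moments
  have iG : Integrable fun a => gau om g a ^ 2 := integrable_gau_sq om hom g hg
  have i2 : Integrable fun a => n2 a * gau om g a ^ 2 :=
    int_poly om hom g hg n2 hn2c 1 fun a => by
      have := n2_nonneg a
      rw [abs_of_nonneg this]
      nlinarith
  have i3 : Integrable fun a => nr a ^ 3 * gau om g a ^ 2 :=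
    int_poly om hom g hg (fun a => nr a ^ 3) (by fun_prop) 1 fun a => by
      have h1 := nr_nonneg a
      have h2 := nr_sq a
      rw [abs_of_nonneg (by positivity), ← h2]
      nlinarith [sq_nonneg (nr a * (nr a - 1)), mul_nonneg h1 (sq_nonneg (nr a - 1)),
        sq_nonneg (nr a)]
  have i4 : Integrable fun a => n2 a ^ 2 * gau om g a ^ 2 :=
    int_poly om hom g hg (fun a => n2 a ^ 2) (by fun_prop) 1 fun a => by
      have := n2_nonneg a
      rw [abs_of_nonneg (by positivity)]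
      nlinarith
  -- the moments
  have m2 : ∫ a, n2 a * gau om g a ^ 2 = g ^ 2 * M2 := by
    rw [scale_gau om hom g hg, hM2, ← integral_const_mul]
    refine integral_congr_ae (ae_of_all _ fun a => ?_)
    simp only
    rw [n2_smul]
    ring
  have m3 : ∫ a, nr a ^ 3 * gau om g a ^ 2 = g ^ 3 * M3 := by
    rw [scale_gau om hom g hg, hM3, ← integral_const_mul]
    refine integral_congr_ae (ae_of_all _ fun a => ?_)
    simp only
    have : nr (g • a) = g * nr a := by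
      unfold nr
      rw [n2_smul, Real.sqrt_mul (sq_nonneg g), Real.sqrt_sq hg.le]
    rw [this]
    ring
  have m4 : ∫ a, n2 a ^ 2 * gau om g a ^ 2 = g ^ 4 * M4 := by
    rw [scale_gau om hom g hg, hM4, ← integral_const_mul]
    refine integral_congr_ae (ae_of_all _ fun a => ?_)
    simp only
    rw [n2_smul]
    ring
  have iGG : Integrable fun a => G a ^ 2 := by
    have := int_f2 hGc hGcs (continuous_const (y := (1 : ℝ)))
    simpa using this
  have hle1 : ∫ a, G a ^ 2 ≤ 1 := by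
    rw [← integral_gau_sq om hom g hg]
    exact integral_mono iGG iG hGsq_le
  have hmass : 1 - 8 / δ ^ 2 * (g ^ 2 * M2) ≤ ∫ a, G a ^ 2 := by
    rw [← m2, ← integral_const_mul, ← integral_gau_sq om hom g hg,
      ← integral_sub iG (i2.const_mul _)]
    refine integral_mono (iG.sub (i2.const_mul _)) iGG fun a => ?_
    simp only
    rw [hGsq]
    have h1 := mul_le_mul_of_nonneg_left (cu_diff δ hδ a) (sq_nonneg (gau om g a))
    linarith
  -- the energy
  have hh2 : ContDiff ℝ 2 (fun z : Q → ℝ => 1 / 2 * ex om z) :=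
    contDiff_const.mul (contDiff_ex om)
  have jac := Pool.Agent.Q31.LU.t_JAC Q (fun z => 1 / 2 * ex om z) (fun _ => 1) G g hg hh2
    contDiff_const hG1 hGcs
  have hlap : ∀ y, lap (fun z : Q → ℝ => 1 / 2 * ex om z) y = So := by
    intro y
    unfold lap
    refine Finset.sum_congr rfl fun i _ => ?_
    have : pd (fun z : Q → ℝ => 1 / 2 * ex om z) i = fun y => om i * y i := by
      funext y; exact pd_h om i y
    rw [this, pd_lin]
  have hg2h : ∀ y : Q → ℝ, g2 (fun z => 1 / 2 * ex om z) y = ∑ i, om i ^ 2 * y i ^ 2 := by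
    intro y
    unfold g2
    refine Finset.sum_congr rfl fun i _ => ?_
    rw [pd_h, mul_pow]
  have hpd1 : ∀ (i : Q) (y : Q → ℝ), pd (fun _ => (1 : ℝ)) i y = 0 := by
    intro i y
    unfold pd
    simp
  have hcgpos : 0 < cg om g := cg_pos om hom g hg
  have hGexp : (fun z => G z * Real.exp (1 / 2 * ex om z / g ^ 2)) = fun z => cg om g * cu δ z := by
    funext z
    rw [hG', gau_eq]
    have : Real.exp (-(ex om z / (2 * g ^ 2))) * Real.exp (1 / 2 * ex om z / g ^ 2) = 1 := by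
      rw [← Real.exp_add]
      have : -(ex om z / (2 * g ^ 2)) + 1 / 2 * ex om z / g ^ 2 = 0 := by
        field_simp
        ring
      rw [this, Real.exp_zero]
    calc cg om g * Real.exp (-(ex om z / (2 * g ^ 2))) * cu δ z *
          Real.exp (1 / 2 * ex om z / g ^ 2)
        = cg om g * cu δ z * (Real.exp (-(ex om z / (2 * g ^ 2))) *
          Real.exp (1 / 2 * ex om z / g ^ 2)) := by ring
      _ = _ := by rw [this, mul_one]
  have hg2cg : ∀ y : Q → ℝ, g2 (fun z => cg om g * cu δ z) y = cg om g ^ 2 * g2 (cu δ) y := by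
    intro y
    unfold g2
    rw [Finset.mul_sum]
    refine Finset.sum_congr rfl fun i _ => ?_
    rw [pd_const_mul hcu1, mul_pow]
  have hfirst : (∫ y, g ^ 2 / 2 * 1 * Real.exp (-(2 * (1 / 2 * ex om y) / g ^ 2)) *
      g2 (fun z => G z * Real.exp (1 / 2 * ex om z / g ^ 2)) y) ≤ g ^ 2 / 2 * Ke := by
    have e1 : ∀ y, g ^ 2 / 2 * 1 * Real.exp (-(2 * (1 / 2 * ex om y) / g ^ 2)) *
        g2 (fun z => G z * Real.exp (1 / 2 * ex om z / g ^ 2)) y =
        g ^ 2 / 2 * (g2 (cu δ) y * gau om g y ^ 2) := by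
      intro y
      rw [hGexp, hg2cg, gau_sq]
      have : -(2 * (1 / 2 * ex om y) / g ^ 2) = -(ex om y) / g ^ 2 := by ring
      rw [this]
      ring
    simp only [e1]
    rw [integral_const_mul]
    refine mul_le_mul_of_nonneg_left ?_ (by positivity)
    calc ∫ y, g2 (cu δ) y * gau om g y ^ 2 ≤ ∫ y, Ke * gau om g y ^ 2 := by
          refine integral_mono ?_ (iG.const_mul Ke) fun y => ?_
          · refine int_poly om hom g hg _ hg2c Ke fun a => ?_
            refine (hKe a).trans ?_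
            have h2 := n2_nonneg a
            nlinarith [mul_nonneg hKe0 h2, mul_nonneg hKe0 (sq_nonneg (n2 a))]
          · exact mul_le_mul_of_nonneg_right (hKe' y) (sq_nonneg _)
      _ = Ke := by rw [integral_const_mul, integral_gau_sq om hom g hg, mul_one]
  have hqc : Continuous fun a : Q → ℝ => ∑ i, om i ^ 2 * a i ^ 2 := by fun_prop
  have j1 : Integrable fun a => g ^ 2 / 2 * g2 G a := int_g2 hG1 hGcs continuous_const
  have j2 : Integrable fun a => 1 / (2 * g ^ 2) * (∑ i, om i ^ 2 * a i ^ 2) * G a ^ 2 :=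
    int_f2 hGc hGcs (continuous_const.mul hqc)
  have henergy : ∫ a, (g ^ 2 / 2 * g2 G a + 1 / (2 * g ^ 2) * (∑ i, om i ^ 2 * a i ^ 2) *
      G a ^ 2) ≤ 1 / 2 * So + g ^ 2 / 2 * Ke := by
    rw [integral_add j1 j2]
    have e1 : (∫ a, g ^ 2 / 2 * g2 G a) = ∫ y, g ^ 2 / 2 * 1 * g2 G y := by
      simp only [mul_one]
    rw [e1, jac]
    have e2 : (∫ y, (1 / 2 * (1 * lap (fun z : Q → ℝ => 1 / 2 * ex om z) y +
        ∑ i, pd (fun _ => (1 : ℝ)) i y * pd (fun z : Q → ℝ => 1 / 2 * ex om z) i y) -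
        1 / (2 * g ^ 2) * (1 * g2 (fun z : Q → ℝ => 1 / 2 * ex om z) y)) * G y ^ 2) =
        1 / 2 * So * (∫ y, G y ^ 2) -
          ∫ a, 1 / (2 * g ^ 2) * (∑ i, om i ^ 2 * a i ^ 2) * G a ^ 2 := by
      rw [← integral_const_mul, ← integral_sub (iGG.const_mul _) j2]
      refine integral_congr_ae (ae_of_all _ fun a => ?_)
      simp only
      rw [hlap, hg2h]
      simp only [hpd1, zero_mul, Finset.sum_const_zero]
      ring
    rw [e2]
    have e3 : 1 / 2 * So * (∫ y, G y ^ 2) ≤ 1 / 2 * So * 1 :=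
      mul_le_mul_of_nonneg_left hle1 (by positivity)
    linarith
  have hg2pos : 0 < g ^ 2 := by positivity
  have hgle1 : g ^ 2 ≤ 1 := by nlinarith
  have hj2n : 0 ≤ ∫ a, 1 / (2 * g ^ 2) * (∑ i, om i ^ 2 * a i ^ 2) * G a ^ 2 := by
    refine integral_nonneg fun a => ?_
    simp only [Pi.zero_apply]
    have : 0 ≤ ∑ i, om i ^ 2 * a i ^ 2 := Finset.sum_nonneg fun i _ => by positivity
    positivity
  have hgrad : g ^ 2 / 2 * (∫ a, g2 G a) ≤ 1 / 2 * So + g ^ 2 / 2 * Ke := by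
    rw [← integral_const_mul]
    rw [integral_add j1 j2] at henergy
    linarith
  -- weighted gradient
  have hpG : ∀ (i : Q) (y : Q → ℝ), pd G i y =
      -(om i * y i / g ^ 2) * gau om g y * cu δ y + gau om g y * pd (cu δ) i y := by
    intro i y
    have h1 : G = fun a => gau om g a * cu δ a := by funext a; exact hG' a
    rw [h1, Pool.Agent.Q31.LU.pd_mul (contDiff_gau om g) hcu1, pd_gau]
  have hg2G : ∀ y : Q → ℝ, g2 G y ≤ (2 * So ^ 2 / g ^ 4 * n2 y + 2 * Ke) * gau om g y ^ 2 := by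
    intro y
    have h1 : ∀ i, pd G i y ^ 2 ≤ (2 * So ^ 2 / g ^ 4 * y i ^ 2) * gau om g y ^ 2 +
        2 * pd (cu δ) i y ^ 2 * gau om g y ^ 2 := by
      intro i
      rw [hpG]
      set A := -(om i * y i / g ^ 2) * gau om g y * cu δ y
      set B := gau om g y * pd (cu δ) i y
      have h2 : (A + B) ^ 2 ≤ 2 * A ^ 2 + 2 * B ^ 2 := by nlinarith [sq_nonneg (A - B)]
      have h3 : A ^ 2 = om i ^ 2 * y i ^ 2 / g ^ 4 * gau om g y ^ 2 * cu δ y ^ 2 := by
        simp only [A]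
        field_simp
      have h4 : om i ^ 2 * y i ^ 2 / g ^ 4 * gau om g y ^ 2 * cu δ y ^ 2 ≤
          So ^ 2 / g ^ 4 * y i ^ 2 * gau om g y ^ 2 := by
        have h5 : om i ^ 2 * y i ^ 2 / g ^ 4 * gau om g y ^ 2 * cu δ y ^ 2 ≤
            om i ^ 2 * y i ^ 2 / g ^ 4 * gau om g y ^ 2 * 1 :=
          mul_le_mul_of_nonneg_left (cu_sq_le δ y) (by positivity)
        have h6 : om i ^ 2 ≤ So ^ 2 := pow_le_pow_left₀ (hom i).le (homle i) 2
        have h7 : om i ^ 2 * (y i ^ 2 / g ^ 4 * gau om g y ^ 2) ≤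
            So ^ 2 * (y i ^ 2 / g ^ 4 * gau om g y ^ 2) :=
          mul_le_mul_of_nonneg_right h6 (by positivity)
        have h8 : om i ^ 2 * y i ^ 2 / g ^ 4 * gau om g y ^ 2 * 1 =
            om i ^ 2 * (y i ^ 2 / g ^ 4 * gau om g y ^ 2) := by ring
        have h9 : So ^ 2 / g ^ 4 * y i ^ 2 * gau om g y ^ 2 =
            So ^ 2 * (y i ^ 2 / g ^ 4 * gau om g y ^ 2) := by ring
        rw [h9]
        linarith
      have h10 : B ^ 2 = pd (cu δ) i y ^ 2 * gau om g y ^ 2 := by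
        simp only [B]; ring
      rw [h3, h10] at h2
      have h11 : (2 * So ^ 2 / g ^ 4 * y i ^ 2) * gau om g y ^ 2 =
          2 * (So ^ 2 / g ^ 4 * y i ^ 2 * gau om g y ^ 2) := by ring
      rw [h11]
      linarith
    calc g2 G y = ∑ i, pd G i y ^ 2 := rfl
      _ ≤ ∑ i, ((2 * So ^ 2 / g ^ 4 * y i ^ 2) * gau om g y ^ 2 +
          2 * pd (cu δ) i y ^ 2 * gau om g y ^ 2) := Finset.sum_le_sum fun i _ => h1 i
      _ = 2 * So ^ 2 / g ^ 4 * n2 y * gau om g y ^ 2 +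
          2 * g2 (cu δ) y * gau om g y ^ 2 := by
          rw [Finset.sum_add_distrib, ← Finset.sum_mul, ← Finset.mul_sum, ← Finset.sum_mul,
            ← Finset.mul_sum]
          rfl
      _ ≤ 2 * So ^ 2 / g ^ 4 * n2 y * gau om g y ^ 2 + 2 * Ke * gau om g y ^ 2 := by
          have h2 := mul_le_mul_of_nonneg_right (hKe' y) (sq_nonneg (gau om g y))
          linarith
      _ = _ := by ring
  have hwgrad : ∫ a, n2 a * g2 G a ≤ 2 * So ^ 2 * M4 + 2 * Ke * M2 := by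
    have h1 : ∫ a, n2 a * g2 G a ≤ ∫ a, (2 * So ^ 2 / g ^ 4 * (n2 a ^ 2 * gau om g a ^ 2) +
        2 * Ke * (n2 a * gau om g a ^ 2)) := by
      refine integral_mono (int_g2 hG1 hGcs hn2c) ((i4.const_mul _).add (i2.const_mul _))
        fun a => ?_
      have h2 := mul_le_mul_of_nonneg_left (hg2G a) (n2_nonneg a)
      simp only
      calc n2 a * g2 G a ≤ n2 a * ((2 * So ^ 2 / g ^ 4 * n2 a + 2 * Ke) * gau om g a ^ 2) := h2
        _ = _ := by ring
    rw [integral_add (i4.const_mul _) (i2.const_mul _), integral_const_mul, integral_const_mul,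
      m4, m2] at h1
    have h2 : 2 * So ^ 2 / g ^ 4 * (g ^ 4 * M4) = 2 * So ^ 2 * M4 := by field_simp
    rw [h2] at h1
    have h3 : 2 * Ke * (g ^ 2 * M2) ≤ 2 * Ke * (1 * M2) := by gcongr
    linarith
  refine ⟨hGs, hGcs, ?_, hle1, ?_, ?_, ?_, ?_, ?_, ?_, ?_⟩
  · refine le_trans ?_ hmass
    have h1 : 8 / δ ^ 2 * M2 * g ^ 2 ≤ K * g ^ 2 := by
      refine mul_le_mul_of_nonneg_right ?_ hg2pos.le
      linarith
    linarith
  · refine henergy.trans ?_
    have h1 : Ke * g ^ 2 ≤ K * g ^ 2 := by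
      refine mul_le_mul_of_nonneg_right ?_ hg2pos.le
      linarith
    have h2 : 0 ≤ Ke * g ^ 2 := by positivity
    linarith
  · rw [le_div_iff₀ hg2pos]
    have h1 : Ke * g ^ 2 ≤ Ke * 1 := mul_le_mul_of_nonneg_left hgle1 hKe0
    have h2 : So + Ke ≤ K := by linarith
    linarith
  · refine hwgrad.trans ?_
    linarith
  · calc ∫ a, n2 a * G a ^ 2 ≤ ∫ a, n2 a * gau om g a ^ 2 :=
          integral_mono (int_f2 hGc hGcs hn2c) i2 fun a =>
            mul_le_mul_of_nonneg_left (hGsq_le a) (n2_nonneg a)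
      _ = M2 * g ^ 2 := by rw [m2]; ring
      _ ≤ K * g ^ 2 := by
          refine mul_le_mul_of_nonneg_right ?_ hg2pos.le
          linarith
  · calc ∫ a, nr a ^ 3 * G a ^ 2 ≤ ∫ a, nr a ^ 3 * gau om g a ^ 2 :=
          integral_mono (int_f2 hGc hGcs (hnrc.pow 3)) i3 fun a =>
            mul_le_mul_of_nonneg_left (hGsq_le a) (pow_nonneg (nr_nonneg a) 3)
      _ = M3 * g ^ 3 := by rw [m3]; ring
      _ ≤ K * g ^ 3 := by
          refine mul_le_mul_of_nonneg_right ?_ (by positivity)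
          linarith
  · intro i j hij
    refine odd_int i _ (by fun_prop) fun a => ?_
    set b : Q → ℝ := fun k => if k = i then -a k else a k with hb
    have hsq : ∀ k, b k ^ 2 = a k ^ 2 := by
      intro k
      simp only [hb]
      by_cases hk : k = i
      · simp [hk]
      · simp [hk]
    have h1 : n2 b = n2 a := by
      unfold n2
      exact Finset.sum_congr rfl fun k _ => hsq k
    have h2 : ex om b = ex om a := by
      unfold ex
      exact Finset.sum_congr rfl fun k _ => by rw [hsq]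
    have h3 : G b ^ 2 = G a ^ 2 := by
      rw [hGsq, hGsq, gau_sq, gau_sq, h2]
      unfold cu
      rw [h1]
    have h4 : b i = -a i := by simp [hb]
    have h5 : b j = a j := by simp [hb, Ne.symm hij]
    rw [h3, h4, h5]
    ring
  · intro i
    have hai : ∀ a : Q → ℝ, a i ^ 2 ≤ (1 + n2 a) ^ 2 := fun a => by
      have h1 := sq_le_n2 a i
      have h2 := n2_nonneg a
      nlinarith
    have ii : Integrable fun a : Q → ℝ => a i ^ 2 * gau om g a ^ 2 :=
      int_poly om hom g hg (fun a => a i ^ 2) (by fun_prop) 1 fun a => by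
        rw [abs_of_nonneg (sq_nonneg _), one_mul]; exact hai a
    have iG2 : Integrable fun a : Q → ℝ => a i ^ 2 * G a ^ 2 :=
      int_f2 hGc hGcs (w := fun a : Q → ℝ => a i ^ 2) (by fun_prop)
    have e1 : (∫ a : Q → ℝ, a i ^ 2 * G a ^ 2) - g ^ 2 / (2 * om i) =
        -(∫ a : Q → ℝ, a i ^ 2 * gau om g a ^ 2 * (1 - cu δ a ^ 2)) := by
      rw [← mom2 om hom g hg i, ← integral_sub iG2 ii, ← integral_neg]
      refine integral_congr_ae (ae_of_all _ fun a => ?_)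
      simp only
      rw [hGsq]
      ring
    have h0 : 0 ≤ ∫ a : Q → ℝ, a i ^ 2 * gau om g a ^ 2 * (1 - cu δ a ^ 2) := by
      refine integral_nonneg fun a => ?_
      simp only [Pi.zero_apply]
      have := cu_sq_le δ a
      have h1 : 0 ≤ 1 - cu δ a ^ 2 := by linarith
      positivity
    rw [e1, abs_neg, abs_of_nonneg h0]
    have h1 : ∫ a : Q → ℝ, a i ^ 2 * gau om g a ^ 2 * (1 - cu δ a ^ 2) ≤
        ∫ a : Q → ℝ, 8 / δ ^ 2 * (n2 a ^ 2 * gau om g a ^ 2) := by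
      refine integral_mono ?_ (i4.const_mul _) fun a => ?_
      · refine (ii.sub iG2).congr (ae_of_all _ fun a => ?_)
        simp only [Pi.sub_apply]
        rw [hGsq]
        ring
      · simp only
        have h2 := cu_diff δ hδ a
        have h3 := sq_le_n2 a i
        have h4 := n2_nonneg a
        calc a i ^ 2 * gau om g a ^ 2 * (1 - cu δ a ^ 2)
            ≤ a i ^ 2 * gau om g a ^ 2 * (8 / δ ^ 2 * n2 a) :=
              mul_le_mul_of_nonneg_left h2 (by positivity)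
          _ = 8 / δ ^ 2 * (a i ^ 2 * (n2 a * gau om g a ^ 2)) := by ring
          _ ≤ 8 / δ ^ 2 * (n2 a * (n2 a * gau om g a ^ 2)) := by
              refine mul_le_mul_of_nonneg_left ?_ (by positivity)
              exact mul_le_mul_of_nonneg_right h3 (by positivity)
          _ = _ := by ring
    refine h1.trans ?_
    rw [integral_const_mul, m4]
    have h5 : 8 / δ ^ 2 * (g ^ 4 * M4) = 8 / δ ^ 2 * M4 * g ^ 4 := by ring
    rw [h5]
    refine mul_le_mul_of_nonneg_right ?_ (by positivity)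
    linarith

/-- the derivative of the smooth transition is bounded -/
theorem exists_st : ∃ C0 : ℝ, 0 ≤ C0 ∧ ∀ x, |deriv Real.smoothTransition x| ≤ C0 := by
  have hc : Continuous (deriv Real.smoothTransition) :=
    (Real.smoothTransition.contDiff (n := 1)).continuous_deriv le_rfl
  obtain ⟨C, hC⟩ := (isCompact_Icc (a := (0 : ℝ)) (b := 1)).exists_bound_of_continuousOn
    hc.continuousOn
  refine ⟨max C 0, le_max_right _ _, fun x => ?_⟩
  rcases lt_or_ge x 0 with h0 | h0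
  · have h1 : Real.smoothTransition =ᶠ[𝓝 x] fun _ => 0 := by
      filter_upwards [Iio_mem_nhds h0] with y hy
      exact Real.smoothTransition.zero_of_nonpos (le_of_lt hy)
    rw [h1.deriv_eq]
    simp
  rcases lt_or_ge 1 x with h2 | h2
  · have h1 : Real.smoothTransition =ᶠ[𝓝 x] fun _ => 1 := by
      filter_upwards [Ioi_mem_nhds h2] with y hy
      exact Real.smoothTransition.one_of_one_le (le_of_lt hy)
    rw [h1.deriv_eq]
    simp
  · exact (hC x ⟨h0, h2⟩).trans (le_max_left _ _)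

theorem deriv_st_neg {x : ℝ} (h0 : x < 0) : deriv Real.smoothTransition x = 0 := by
  have h1 : Real.smoothTransition =ᶠ[𝓝 x] fun _ => 0 := by
    filter_upwards [Iio_mem_nhds h0] with y hy
    exact Real.smoothTransition.zero_of_nonpos (le_of_lt hy)
  rw [h1.deriv_eq]
  simp

/-- the gradient of the cut-off is bounded -/
theorem exists_cu : ∃ C0 : ℝ, 0 ≤ C0 ∧ ∀ (Q : Type) [Fintype Q] [DecidableEq Q] (δ : ℝ), 0 < δ →
    ∀ a : Q → ℝ, g2 (cu δ) a ≤ C0 / δ ^ 2 := by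
  obtain ⟨C0, hC0, hst⟩ := exists_st
  refine ⟨64 * C0 ^ 2, by positivity, ?_⟩
  intro Q _ _ δ hδ a
  have hpd : ∀ i, pd (cu δ) i a =
      deriv Real.smoothTransition (2 - 2 * (4 * n2 a / δ ^ 2)) * (-(16 / δ ^ 2 * a i)) := by
    intro i
    have h1 : HasFDerivAt (n2 : (Q → ℝ) → ℝ) (fderiv ℝ n2 a) a :=
      (((contDiff_n2 (Q := Q) (n := 1)).differentiable one_ne_zero) a).hasFDerivAt
    have h2 : HasDerivAt Real.smoothTransition
        (deriv Real.smoothTransition (2 - 2 * (4 * n2 a / δ ^ 2)))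
        (2 - 2 * (4 * n2 a / δ ^ 2)) :=
      ((Real.smoothTransition.contDiff (n := 1)).differentiable one_ne_zero _).hasDerivAt
    have h3 : HasFDerivAt (fun z : Q → ℝ => 2 - 2 * (4 * n2 z / δ ^ 2))
        (-((8 / δ ^ 2) • fderiv ℝ n2 a)) a := by
      have h4 := (h1.const_mul (8 / δ ^ 2)).const_sub 2
      refine h4.congr_of_eventuallyEq (Eventually.of_forall fun z => ?_)
      simp only
      ring
    have h5 := h2.comp_hasFDerivAt a h3
    have h6 : (Real.smoothTransition ∘ fun z : Q → ℝ => 2 - 2 * (4 * n2 z / δ ^ 2)) = cu δ := rfl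
    rw [h6] at h5
    have h7 : fderiv ℝ (n2 : (Q → ℝ) → ℝ) a (Pi.single i 1) = 2 * a i := pd_n2 i a
    unfold pd
    rw [h5.fderiv]
    simp only [smul_apply, neg_apply, smul_eq_mul, h7]
    ring
  by_cases h : 4 * n2 a / δ ^ 2 ≤ 1
  · have h1 : g2 (cu δ) a = deriv Real.smoothTransition (2 - 2 * (4 * n2 a / δ ^ 2)) ^ 2 *
        (256 / δ ^ 4 * n2 a) := by
      have e1 : ∀ i, pd (cu δ) i a ^ 2 = deriv Real.smoothTransition (2 - 2 * (4 * n2 a / δ ^ 2)) ^ 2
          * (256 / δ ^ 4 * a i ^ 2) := by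
        intro i
        rw [hpd i]
        ring
      unfold g2
      rw [Finset.sum_congr rfl fun i _ => e1 i, ← Finset.mul_sum, ← Finset.mul_sum]
      rfl
    rw [h1]
    have h2 : deriv Real.smoothTransition (2 - 2 * (4 * n2 a / δ ^ 2)) ^ 2 ≤ C0 ^ 2 := by
      rw [← sq_abs]
      exact pow_le_pow_left₀ (abs_nonneg _) (hst _) 2
    have h3 : 256 / δ ^ 4 * n2 a ≤ 64 / δ ^ 2 := by
      have h4 : 256 / δ ^ 4 * n2 a = 64 / δ ^ 2 * (4 * n2 a / δ ^ 2) := by
        field_simp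
        ring
      rw [h4]
      have h5 : 0 ≤ 64 / δ ^ 2 := by positivity
      have := mul_le_mul_of_nonneg_left h h5
      linarith
    have h6 : 0 ≤ 256 / δ ^ 4 * n2 a := by
      have := n2_nonneg a
      positivity
    calc deriv Real.smoothTransition (2 - 2 * (4 * n2 a / δ ^ 2)) ^ 2 * (256 / δ ^ 4 * n2 a)
        ≤ C0 ^ 2 * (64 / δ ^ 2) := mul_le_mul h2 h3 h6 (by positivity)
      _ = _ := by ring
  · push Not at h
    have h1 : g2 (cu δ) a = 0 := by
      unfold g2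
      refine Finset.sum_eq_zero fun i _ => ?_
      rw [hpd i, deriv_st_neg (by linarith)]
      ring
    rw [h1]
    positivity

section fourth

variable {Q : Type} [Fintype Q] [DecidableEq Q]

/-- the fourth moments -/
theorem mom4 (om : Q → ℝ) (hom : ∀ i, 0 < om i) (i : Q) :
    ∫ a : Q → ℝ, a i ^ 4 * gau om 1 a ^ 2 = 3 / (4 * om i ^ 2) := by
  have hg : (0 : ℝ) < 1 := one_pos
  set u : (Q → ℝ) → ℝ := fun a => a i ^ 3 * gau om 1 a with hu
  have hgd : Differentiable ℝ (gau om 1) := (contDiff_gau om 1 (n := 1)).differentiable one_ne_zero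
  have hai : Differentiable ℝ fun a : Q → ℝ => a i ^ 3 := fun a =>
    ((hasFDerivAt_apply i a).differentiableAt).pow 3
  have hud : Differentiable ℝ u := hai.mul hgd
  have hpg : ∀ a, fderiv ℝ (gau om 1) a (Pi.single i 1) = -(om i * a i) * gau om 1 a := by
    intro a
    have h := pd_gau om 1 i a
    unfold pd at h
    rw [h]
    ring
  have hpu : ∀ a, fderiv ℝ u a (Pi.single i 1) =
      (3 * a i ^ 2 - om i * a i ^ 4) * gau om 1 a := by
    intro a
    have h1 : HasFDerivAt (fun a : Q → ℝ => a i)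
      (ContinuousLinearMap.proj i : (Q → ℝ) →L[ℝ] ℝ) a := hasFDerivAt_apply i a
    have h2 := (h1.pow 3).fun_mul (hgd a).hasFDerivAt
    have h4 : fderiv ℝ u a (Pi.single i 1) = fderiv ℝ (fun y : Q → ℝ => y i ^ 3 * gau om 1 y) a
      (Pi.single i 1) := rfl
    rw [h4, h2.fderiv]
    simp [hpg]
    ring
  have b2 : ∀ a : Q → ℝ, a i ^ 2 ≤ (1 + n2 a) ^ 2 := fun a => by
    have h1 := sq_le_n2 a i
    have h2 := n2_nonneg a
    nlinarith
  have b4 : ∀ a : Q → ℝ, a i ^ 4 ≤ (1 + n2 a) ^ 2 := fun a => by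
    have h1 := sq_le_n2 a i
    have h2 := n2_nonneg a
    have h3 : a i ^ 4 = (a i ^ 2) ^ 2 := by ring
    rw [h3]
    exact pow_le_pow_left₀ (sq_nonneg _) (by linarith) 2
  have b3 : ∀ a : Q → ℝ, |a i ^ 3| ≤ (1 + n2 a) ^ 2 := fun a => by
    have h1 := sq_le_n2 a i
    have h2 := n2_nonneg a
    have h3 : |a i ^ 3| ≤ (1 + a i ^ 2) ^ 2 := by
      rw [abs_le]
      constructor
      · nlinarith [sq_nonneg (a i ^ 2 + a i), sq_nonneg (a i + 1), sq_nonneg (a i),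
          mul_nonneg (sq_nonneg (a i)) (sq_nonneg (a i + 1))]
      · nlinarith [sq_nonneg (a i ^ 2 - a i), sq_nonneg (a i - 1), sq_nonneg (a i),
          mul_nonneg (sq_nonneg (a i)) (sq_nonneg (a i - 1))]
    exact h3.trans (pow_le_pow_left₀ (by positivity) (by linarith) 2)
  have j2 : Integrable fun a : Q → ℝ => a i ^ 2 * gau om 1 a ^ 2 :=
    int_poly om hom 1 hg (fun a => a i ^ 2) (by fun_prop) 1 fun a => by
      rw [abs_of_nonneg (sq_nonneg _), one_mul]; exact b2 a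
  have j4 : Integrable fun a : Q → ℝ => a i ^ 4 * gau om 1 a ^ 2 :=
    int_poly om hom 1 hg (fun a => a i ^ 4) (by fun_prop) 1 fun a => by
      rw [abs_of_nonneg (by positivity), one_mul]; exact b4 a
  have i1 : Integrable fun a : Q → ℝ => fderiv ℝ u a (Pi.single i 1) * gau om 1 a := by
    refine ((j2.const_mul 3).sub (j4.const_mul (om i))).congr (ae_of_all _ fun a => ?_)
    simp only [Pi.sub_apply]
    rw [hpu]
    ring
  have i2 : Integrable fun a : Q → ℝ => u a * fderiv ℝ (gau om 1) a (Pi.single i 1) := by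
    refine (j4.const_mul (-(om i))).congr (ae_of_all _ fun a => ?_)
    simp only [hu]
    rw [hpg]
    ring
  have i3 : Integrable fun a : Q → ℝ => u a * gau om 1 a := by
    refine (int_poly om hom 1 hg (fun a => a i ^ 3) (by fun_prop) 1 fun a => by
      rw [one_mul]; exact b3 a).congr (ae_of_all _ fun a => ?_)
    simp only [hu]
    ring
  have h := integral_mul_fderiv_eq_neg_fderiv_mul_of_integrable (μ := volume)
    (v := (Pi.single i 1 : Q → ℝ)) i1 i2 i3 (fun x _ => hud x) (fun x _ => hgd x)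
  have e1 : ∫ a : Q → ℝ, u a * fderiv ℝ (gau om 1) a (Pi.single i 1) =
      -(om i) * ∫ a : Q → ℝ, a i ^ 4 * gau om 1 a ^ 2 := by
    rw [← integral_const_mul]
    refine integral_congr_ae (ae_of_all _ fun a => ?_)
    simp only [hu]
    rw [hpg]
    ring
  have e2 : ∫ a : Q → ℝ, fderiv ℝ u a (Pi.single i 1) * gau om 1 a =
      3 * (∫ a : Q → ℝ, a i ^ 2 * gau om 1 a ^ 2) -
        om i * ∫ a : Q → ℝ, a i ^ 4 * gau om 1 a ^ 2 := by
    have h5 : ∫ a : Q → ℝ, fderiv ℝ u a (Pi.single i 1) * gau om 1 a =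
        ∫ a : Q → ℝ, (3 * (a i ^ 2 * gau om 1 a ^ 2) - om i * (a i ^ 4 * gau om 1 a ^ 2)) := by
      refine integral_congr_ae (ae_of_all _ fun a => ?_)
      simp only
      rw [hpu]
      ring
    rw [h5, integral_sub (j2.const_mul 3) (j4.const_mul _), integral_const_mul,
      integral_const_mul]
  rw [e1, e2, mom2 om hom 1 hg] at h
  have h1 := hom i
  set X := ∫ a : Q → ℝ, a i ^ 4 * gau om 1 a ^ 2
  have h2 : 2 * (om i * X) = 3 * (1 ^ 2 / (2 * om i)) := by linarith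
  field_simp at h2 ⊢
  linarith

theorem M2_le (om : Q → ℝ) (Λ : ℝ) (hΛ : 1 ≤ Λ) (hc : (Fintype.card Q : ℝ) ≤ Λ)
    (hom : ∀ i, Λ⁻¹ ≤ om i) : ∫ b : Q → ℝ, n2 b * gau om 1 b ^ 2 ≤ Λ ^ 2 := by
  have hΛ0 : 0 < Λ := by linarith
  have hom0 : ∀ i, 0 < om i := fun i => (inv_pos.2 hΛ0).trans_le (hom i)
  have j2 : ∀ i, Integrable fun a : Q → ℝ => a i ^ 2 * gau om 1 a ^ 2 := fun i =>
    int_poly om hom0 1 one_pos (fun a => a i ^ 2) (by fun_prop) 1 fun a => by
      have h1 := sq_le_n2 a i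
      have h2 := n2_nonneg a
      rw [abs_of_nonneg (sq_nonneg _), one_mul]
      nlinarith
  have e1 : ∫ b : Q → ℝ, n2 b * gau om 1 b ^ 2 = ∑ i, 1 ^ 2 / (2 * om i) := by
    have e2 : ∀ b : Q → ℝ, n2 b * gau om 1 b ^ 2 = ∑ i, b i ^ 2 * gau om 1 b ^ 2 := by
      intro b
      unfold n2
      rw [Finset.sum_mul]
    simp only [e2]
    rw [integral_finsetSum _ fun i _ => j2 i]
    exact Finset.sum_congr rfl fun i _ => mom2 om hom0 1 one_pos i
  rw [e1]
  have h2 : ∀ i, 1 ^ 2 / (2 * om i) ≤ Λ := by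
    intro i
    have h3 := hom i
    have h4 := hom0 i
    rw [inv_le_iff_one_le_mul₀ hΛ0] at h3
    rw [div_le_iff₀ (by positivity)]
    nlinarith
  calc ∑ i, 1 ^ 2 / (2 * om i) ≤ ∑ _i : Q, Λ := Finset.sum_le_sum fun i _ => h2 i
    _ = Fintype.card Q * Λ := by simp
    _ ≤ Λ * Λ := mul_le_mul_of_nonneg_right hc hΛ0.le
    _ = _ := by ring

theorem M4_le (om : Q → ℝ) (Λ : ℝ) (hΛ : 1 ≤ Λ) (hc : (Fintype.card Q : ℝ) ≤ Λ)
    (hom : ∀ i, Λ⁻¹ ≤ om i) : ∫ b : Q → ℝ, n2 b ^ 2 * gau om 1 b ^ 2 ≤ Λ ^ 4 := by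
  have hΛ0 : 0 < Λ := by linarith
  have hom0 : ∀ i, 0 < om i := fun i => (inv_pos.2 hΛ0).trans_le (hom i)
  have j4 : ∀ i, Integrable fun a : Q → ℝ => a i ^ 4 * gau om 1 a ^ 2 := fun i =>
    int_poly om hom0 1 one_pos (fun a => a i ^ 4) (by fun_prop) 1 fun a => by
      have h1 := sq_le_n2 a i
      have h2 := n2_nonneg a
      have h3 : a i ^ 4 = (a i ^ 2) ^ 2 := by ring
      rw [abs_of_nonneg (by positivity), one_mul, h3]
      exact pow_le_pow_left₀ (sq_nonneg _) (by linarith) 2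
  have hn2c := continuous_n2 (Q := Q)
  have i4 : Integrable fun a : Q → ℝ => n2 a ^ 2 * gau om 1 a ^ 2 :=
    int_poly om hom0 1 one_pos (fun a => n2 a ^ 2) (by fun_prop) 1 fun a => by
      have := n2_nonneg a
      rw [abs_of_nonneg (by positivity)]
      nlinarith
  have h1 : ∫ b : Q → ℝ, n2 b ^ 2 * gau om 1 b ^ 2 ≤
      ∫ b : Q → ℝ, (Fintype.card Q : ℝ) * ∑ i, b i ^ 4 * gau om 1 b ^ 2 := by
    refine integral_mono i4 ((integrable_finsetSum _ fun i _ => j4 i).const_mul _) fun b => ?_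
    simp only
    have h2 : n2 b ^ 2 ≤ Fintype.card Q * ∑ i, b i ^ 4 := by
      have h3 := sq_sum_le_card_mul_sum_sq (s := (Finset.univ : Finset Q)) (f := fun i => b i ^ 2)
      rw [Finset.card_univ] at h3
      have h4 : ∀ i, (b i ^ 2) ^ 2 = b i ^ 4 := fun i => by ring
      simp only [h4] at h3
      exact h3
    calc n2 b ^ 2 * gau om 1 b ^ 2 ≤ (Fintype.card Q * ∑ i, b i ^ 4) * gau om 1 b ^ 2 :=
          mul_le_mul_of_nonneg_right h2 (sq_nonneg _)
      _ = _ := by rw [mul_assoc, Finset.sum_mul]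
  refine h1.trans ?_
  rw [integral_const_mul, integral_finsetSum _ fun i _ => j4 i,
    Finset.sum_congr rfl fun i _ => mom4 om hom0 i]
  have h2 : ∀ i, 3 / (4 * om i ^ 2) ≤ Λ ^ 2 := by
    intro i
    have h3 := hom i
    have h4 := hom0 i
    rw [inv_le_iff_one_le_mul₀ hΛ0] at h3
    rw [div_le_iff₀ (by positivity)]
    have h5 : 1 ≤ (Λ * om i) ^ 2 := one_le_pow₀ (by linarith)
    have h6 : Λ ^ 2 * (4 * om i ^ 2) = 4 * (Λ * om i) ^ 2 := by ring
    rw [h6]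
    linarith
  have h7 : ∑ i, 3 / (4 * om i ^ 2) ≤ Λ * Λ ^ 2 := by
    calc ∑ i, 3 / (4 * om i ^ 2) ≤ ∑ _i : Q, Λ ^ 2 := Finset.sum_le_sum fun i _ => h2 i
      _ = Fintype.card Q * Λ ^ 2 := by simp
      _ ≤ Λ * Λ ^ 2 := mul_le_mul_of_nonneg_right hc (by positivity)
  calc (Fintype.card Q : ℝ) * ∑ i, 3 / (4 * om i ^ 2) ≤ Λ * (Λ * Λ ^ 2) := by
        refine mul_le_mul hc h7 ?_ hΛ0.le
        exact Finset.sum_nonneg fun i _ => by have := hom0 i; positivity
    _ = _ := by ring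

theorem M3_le (om : Q → ℝ) (Λ : ℝ) (hΛ : 1 ≤ Λ) (hc : (Fintype.card Q : ℝ) ≤ Λ)
    (hom : ∀ i, Λ⁻¹ ≤ om i) : ∫ b : Q → ℝ, nr b ^ 3 * gau om 1 b ^ 2 ≤ Λ ^ 4 := by
  have hΛ0 : 0 < Λ := by linarith
  have hom0 : ∀ i, 0 < om i := fun i => (inv_pos.2 hΛ0).trans_le (hom i)
  have hn2c := continuous_n2 (Q := Q)
  have hnrc := continuous_nr (Q := Q)
  have i2 : Integrable fun a : Q → ℝ => n2 a * gau om 1 a ^ 2 :=
    int_poly om hom0 1 one_pos n2 hn2c 1 fun a => by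
      have := n2_nonneg a
      rw [abs_of_nonneg this]
      nlinarith
  have i4 : Integrable fun a : Q → ℝ => n2 a ^ 2 * gau om 1 a ^ 2 :=
    int_poly om hom0 1 one_pos (fun a => n2 a ^ 2) (by fun_prop) 1 fun a => by
      have := n2_nonneg a
      rw [abs_of_nonneg (by positivity)]
      nlinarith
  have i3 : Integrable fun a => nr a ^ 3 * gau om 1 a ^ 2 :=
    int_poly om hom0 1 one_pos (fun a => nr a ^ 3) (by fun_prop) 1 fun a => by
      have h1 := nr_nonneg a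
      have h2 := nr_sq a
      rw [abs_of_nonneg (by positivity), ← h2]
      nlinarith [sq_nonneg (nr a * (nr a - 1)), mul_nonneg h1 (sq_nonneg (nr a - 1)),
        sq_nonneg (nr a)]
  have h1 : ∫ b : Q → ℝ, nr b ^ 3 * gau om 1 b ^ 2 ≤
      ∫ b : Q → ℝ, (1 / 2 * (n2 b * gau om 1 b ^ 2) + 1 / 2 * (n2 b ^ 2 * gau om 1 b ^ 2)) := by
    refine integral_mono i3 ((i2.const_mul _).add (i4.const_mul _)) fun b => ?_
    simp only
    have h2 : nr b ^ 3 ≤ 1 / 2 * n2 b + 1 / 2 * n2 b ^ 2 := by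
      rw [← nr_sq b]
      nlinarith [sq_nonneg (nr b * (nr b - 1))]
    have h3 := mul_le_mul_of_nonneg_right h2 (sq_nonneg (gau om 1 b))
    linarith
  rw [integral_add (i2.const_mul _) (i4.const_mul _), integral_const_mul, integral_const_mul] at h1
  have h2 := M2_le om Λ hΛ hc hom
  have h3 := M4_le om Λ hΛ hc hom
  have h4 : Λ ^ 2 ≤ Λ ^ 4 := pow_le_pow_right₀ hΛ (by norm_num)
  linarith

end fourth

theorem t_GMU : S_GMU := by
  obtain ⟨C0, hC0, hcu⟩ := exists_cu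
  refine ⟨8, 32 + 4 * C0, by linarith, ?_⟩
  intro Q _ _ om δ Λ M hΛ hc hom hδ1 hδ2 hM g hg hgM G hG
  have hΛ0 : 0 < Λ := by linarith
  have hom0 : ∀ i, 0 < om i := fun i => (inv_pos.2 hΛ0).trans_le (hom i).1
  have hδ : 0 < δ := (inv_pos.2 hΛ0).trans_le hδ1
  have hp : ∀ k : ℕ, k ≤ 8 → Λ ^ k ≤ Λ ^ 8 := fun k hk => pow_le_pow_right₀ hΛ hk
  have h8 : 1 ≤ Λ ^ 8 := one_le_pow₀ hΛ
  have hM1 : 1 ≤ M := by
    rw [hM]
    nlinarith
  have hg1 : g ≤ 1 := hgM.trans (inv_le_one_of_one_le₀ hM1)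
  have hδi : 1 / δ ^ 2 ≤ Λ ^ 2 := by
    rw [inv_le_iff_one_le_mul₀ hΛ0] at hδ1
    rw [div_le_iff₀ (by positivity)]
    have h5 : 1 ≤ (Λ * δ) ^ 2 := one_le_pow₀ (by linarith)
    linarith [mul_pow Λ δ 2]
  have hm2 := M2_le om Λ hΛ hc fun i => (hom i).1
  have hm3 := M3_le om Λ hΛ hc fun i => (hom i).1
  have hm4 := M4_le om Λ hΛ hc fun i => (hom i).1
  have hm2' : 0 ≤ ∫ b : Q → ℝ, n2 b * gau om 1 b ^ 2 :=
    integral_nonneg fun b => mul_nonneg (n2_nonneg b) (sq_nonneg _)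
  have hm4' : 0 ≤ ∫ b : Q → ℝ, n2 b ^ 2 * gau om 1 b ^ 2 :=
    integral_nonneg fun b => mul_nonneg (sq_nonneg _) (sq_nonneg _)
  have hSo : ∑ i, om i ≤ Λ ^ 2 := by
    calc ∑ i, om i ≤ ∑ _i : Q, Λ := Finset.sum_le_sum fun i _ => (hom i).2
      _ = Fintype.card Q * Λ := by simp
      _ ≤ Λ * Λ := mul_le_mul_of_nonneg_right hc hΛ0.le
      _ = _ := by ring
  have hSo0 : 0 ≤ ∑ i, om i := Finset.sum_nonneg fun i _ => (hom0 i).le
  refine gm_core Q om δ (C0 * Λ ^ 2) M hom0 hδ (fun a => ?_) ?_ g hg hg1 G hG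
  · refine (hcu Q δ hδ a).trans ?_
    have := mul_le_mul_of_nonneg_left hδi hC0
    calc C0 / δ ^ 2 = C0 * (1 / δ ^ 2) := by ring
      _ ≤ _ := this
  · set m2 := ∫ b : Q → ℝ, n2 b * gau om 1 b ^ 2
    set m3 := ∫ b : Q → ℝ, nr b ^ 3 * gau om 1 b ^ 2
    set m4 := ∫ b : Q → ℝ, n2 b ^ 2 * gau om 1 b ^ 2
    set So := ∑ i, om i
    have t1 : 8 / δ ^ 2 * m2 ≤ 8 * Λ ^ 8 := by
      calc 8 / δ ^ 2 * m2 = 8 * (1 / δ ^ 2) * m2 := by ring
        _ ≤ 8 * Λ ^ 2 * Λ ^ 2 := by gcongr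
        _ = 8 * Λ ^ 4 := by ring
        _ ≤ _ := by linarith [hp 4 (by norm_num)]
    have t2 : C0 * Λ ^ 2 ≤ C0 * Λ ^ 8 := mul_le_mul_of_nonneg_left (hp 2 (by norm_num)) hC0
    have t3 : 2 * So ^ 2 * m4 ≤ 2 * Λ ^ 8 := by
      calc 2 * So ^ 2 * m4 ≤ 2 * (Λ ^ 2) ^ 2 * Λ ^ 4 := by gcongr
        _ = _ := by ring
    have t4 : 2 * (C0 * Λ ^ 2) * m2 ≤ 2 * C0 * Λ ^ 8 := by
      calc 2 * (C0 * Λ ^ 2) * m2 ≤ 2 * (C0 * Λ ^ 2) * Λ ^ 2 := by gcongr
        _ = 2 * (C0 * Λ ^ 4) := by ring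
        _ ≤ 2 * (C0 * Λ ^ 8) := by
          have := mul_le_mul_of_nonneg_left (hp 4 (by norm_num)) hC0
          linarith
        _ = _ := by ring
    have t5 : 8 / δ ^ 2 * m4 ≤ 8 * Λ ^ 8 := by
      calc 8 / δ ^ 2 * m4 = 8 * (1 / δ ^ 2) * m4 := by ring
        _ ≤ 8 * Λ ^ 2 * Λ ^ 4 := by gcongr
        _ = 8 * Λ ^ 6 := by ring
        _ ≤ _ := by linarith [hp 6 (by norm_num)]
    have t6 := hp 2 (by norm_num)
    have t7 := hp 4 (by norm_num)
    rw [hM]
    have e : (32 + 4 * C0) * Λ ^ 8 = 32 * Λ ^ 8 + 4 * (C0 * Λ ^ 8) := by ring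
    rw [e]
    linarith

end Pool.Agent.Q222.LUU
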